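import Mathlib

/-!
# Abstract elementary classes: definitions (squad AEC, problem MP_23d7af_lc)

Everything lives in a universe `u`: the vocabulary `L : Language.{u, u}`, the structures `M : Type u`
and the cardinals `Cardinal.{u}`.
-/

open FirstOrder FirstOrder.Language Cardinal Set

universe u

namespace Pool.Agent.AEC

/-- An abstract elementary class `𝒦` in the vocabulary `L` with Löwenheim-Skolem number `≤ κ`.

`mem M` says that the `L`-structure `M` belongs to the class.  For an embedding `f : M ↪[L] N` of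
`L`-structures, `emb f` says that `f` is a `𝒦`-embedding, that is, `M` and `N` belong to the class
and `f(M) ≤_𝒦 N`.  In particular, for a substructure `S` of `N`, `emb S.subtype` says `S ≤_𝒦 N`,
and for substructures `S ≤ T` of some structure, `emb (Substructure.inclusion h)` says
`S ≤_𝒦 T`.  The fields say: `|L| + ℵ₀ ≤ κ`; the class and `≤_𝒦` are closed under isomorphism,
`≤_𝒦` is reflexive and transitive (`iso`, `comp`); coherence (`coh`); the two Tarski-Vaught chain
axioms for increasing continuous chains indexed by well-ordered sets (`chain`: the union of a chain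
is in the class and is a `≤_𝒦`-extension of the members of the chain; `smooth`: if all members of
the chain are `≤_𝒦 N`, so is the union); and the Löwenheim-Skolem axiom (`ls`). -/
structure AEC (L : FirstOrder.Language.{u, u}) (κ : Cardinal.{u}) where
  mem : ∀ (M : Type u) [L.Structure M], Prop
  emb : ∀ {M N : Type u} [L.Structure M] [L.Structure N], (M ↪[L] N) → Prop
  card_le : L.card ≤ κ
  aleph0_le : ℵ₀ ≤ κ
  dom : ∀ {M N : Type u} [L.Structure M] [L.Structure N] {f : M ↪[L] N}, emb f → mem M
  cod : ∀ {M N : Type u} [L.Structure M] [L.Structure N] {f : M ↪[L] N}, emb f → mem N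
  iso : ∀ {M N : Type u} [L.Structure M] [L.Structure N], mem M → ∀ e : M ≃[L] N,
    emb e.toEmbedding
  comp : ∀ {M N P : Type u} [L.Structure M] [L.Structure N] [L.Structure P]
    {f : M ↪[L] N} {g : N ↪[L] P}, emb f → emb g → emb (g.comp f)
  coh : ∀ {M N P : Type u} [L.Structure M] [L.Structure N] [L.Structure P]
    {f : M ↪[L] N} {g : N ↪[L] P}, emb g → emb (g.comp f) → emb f
  chain : ∀ {U : Type u} [L.Structure U] {I : Type u} [LinearOrder I] [WellFoundedLT I]
    [Nonempty I] (S : I → L.Substructure U) (mono : Monotone S),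
    (∀ i j (h : i ≤ j), emb (Substructure.inclusion (mono h))) →
    (∀ i, Order.IsSuccLimit i → S i = ⨆ j : Set.Iio i, S j) →
    ∀ i, emb (Substructure.inclusion (le_iSup S i))
  smooth : ∀ {N : Type u} [L.Structure N] {I : Type u} [LinearOrder I] [WellFoundedLT I]
    [Nonempty I] (S : I → L.Substructure N), Monotone S → (∀ i, emb (S i).subtype) →
    (∀ i, Order.IsSuccLimit i → S i = ⨆ j : Set.Iio i, S j) → emb (⨆ i, S i).subtype
  ls : ∀ {N : Type u} [L.Structure N], mem N → ∀ A : Set N, ∃ S : L.Substructure N,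
    A ⊆ (S : Set N) ∧ emb S.subtype ∧ #S ≤ #A + κ

variable {L : FirstOrder.Language.{u, u}} {κ : Cardinal.{u}}

namespace AEC

/-- The members of the class. -/
structure Mod (K : AEC L κ) : Type (u + 1) where
  α : Type u
  [str : L.Structure α]
  prop : K.mem α

attribute [instance] Mod.str

/-- The `𝒦`-embeddings `A → B`. -/
structure Hom (K : AEC L κ) (A B : K.Mod) : Type u where
  toEmb : A.α ↪[L] B.α
  emb : K.emb toEmb

variable {K : AEC L κ}

instance {A B : K.Mod} : FunLike (K.Hom A B) A.α B.α where
  coe f := f.toEmb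
  coe_injective := by
    rintro ⟨f, hf⟩ ⟨g, hg⟩ h
    have : f = g := DFunLike.coe_injective h
    subst this
    rfl

theorem Hom.ext {A B : K.Mod} {f g : K.Hom A B} (h : ∀ x, f x = g x) : f = g :=
  DFunLike.ext _ _ h

theorem Hom.coe_toEmb {A B : K.Mod} (f : K.Hom A B) (x : A.α) : f.toEmb x = f x := rfl

theorem Hom.injective {A B : K.Mod} (f : K.Hom A B) : Function.Injective f :=
  f.toEmb.injective

/-- The identity. -/
def Hom.id (A : K.Mod) : K.Hom A A := ⟨(FirstOrder.Language.Equiv.refl L A.α).toEmbedding,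
  K.iso A.prop _⟩

@[simp] theorem Hom.id_apply (A : K.Mod) (x : A.α) : Hom.id A x = x := rfl

/-- Composition. -/
def Hom.comp {A B C : K.Mod} (g : K.Hom B C) (f : K.Hom A B) : K.Hom A C :=
  ⟨g.toEmb.comp f.toEmb, K.comp f.emb g.emb⟩

@[simp] theorem Hom.comp_apply {A B C : K.Mod} (g : K.Hom B C) (f : K.Hom A B) (x : A.α) :
    g.comp f x = g (f x) := rfl

/-- An isomorphism of structures is a `𝒦`-embedding. -/
def Hom.ofEquiv {A B : K.Mod} (e : A.α ≃[L] B.α) : K.Hom A B := ⟨e.toEmbedding, K.iso A.prop e⟩

@[simp] theorem Hom.ofEquiv_apply {A B : K.Mod} (e : A.α ≃[L] B.α) (x : A.α) :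
    Hom.ofEquiv e x = e x := rfl

/-- A strong substructure as a member of the class. -/
def sub (A : K.Mod) (S : L.Substructure A.α) (h : K.emb S.subtype) : K.Mod := ⟨S, K.dom h⟩

/-- The inclusion of a strong substructure. -/
def subHom (A : K.Mod) (S : L.Substructure A.α) (h : K.emb S.subtype) : K.Hom (sub A S h) A :=
  ⟨S.subtype, h⟩

@[simp] theorem subHom_apply (A : K.Mod) (S : L.Substructure A.α) (h : K.emb S.subtype)
    (x : S) : subHom A S h x = (x : A.α) := rfl

/-- The range of a `𝒦`-embedding is a strong substructure. -/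
theorem Hom.emb_range {A B : K.Mod} (f : K.Hom A B) : K.emb f.toEmb.toHom.range.subtype := by
  have h1 : K.emb f.toEmb.equivRange.symm.toEmbedding :=
    K.iso (K.cod (K.iso A.prop f.toEmb.equivRange)) _
  have h2 : f.toEmb.toHom.range.subtype = f.toEmb.comp f.toEmb.equivRange.symm.toEmbedding := by
    ext x
    have := congrArg Subtype.val (f.toEmb.equivRange.apply_symm_apply x)
    exact this.symm
  rw [h2]
  exact K.comp h1 f.emb

/-- Factorization: if the range of `h : A → C` lies in the range of `g : B → C` then `h`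
factors through `g`. -/
theorem Hom.exists_factor {A B C : K.Mod} (h : K.Hom A C) (g : K.Hom B C)
    (hr : ∀ a, ∃ b, g b = h a) : ∃ f : K.Hom A B, ∀ a, g (f a) = h a := by
  let i : A.α ↪[L] g.toEmb.toHom.range := Embedding.codRestrict g.toEmb.toHom.range h.toEmb
    (fun a => by
      obtain ⟨b, hb⟩ := hr a
      exact ⟨b, hb⟩)
  let f : A.α ↪[L] B.α := g.toEmb.equivRange.symm.toEmbedding.comp i
  have hf : ∀ a, g.toEmb (f a) = h.toEmb a := by
    intro a
    exact congrArg Subtype.val (g.toEmb.equivRange.apply_symm_apply (i a))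
  have hc : g.toEmb.comp f = h.toEmb := by
    ext a
    exact hf a
  exact ⟨⟨f, K.coh g.emb (hc ▸ h.emb)⟩, hf⟩

variable (K)

/-- `𝒦` is categorical in the cardinal `l`: there is exactly one member of cardinality `l`
up to isomorphism. -/
def Cat (l : Cardinal.{u}) : Prop :=
  (∃ M : K.Mod, #M.α = l) ∧
    ∀ M N : K.Mod, #M.α = l → #N.α = l → Nonempty (M.α ≃[L] N.α)

/-- `𝒦` is categorical in unboundedly many cardinals. -/
def UbCat : Prop := ∀ m : Cardinal.{u}, ∃ l : Cardinal.{u}, m ≤ l ∧ K.Cat l

/-- `𝒦` has arbitrarily large members. -/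
def ArbLarge : Prop := ∀ m : Cardinal.{u}, ∃ M : K.Mod, m ≤ #M.α

variable {K}

/-- The member `N` of the class is maximal: it has no proper `𝒦`-extension. -/
def IsMax (N : K.Mod) : Prop := ∀ (N' : K.Mod) (f : K.Hom N N'), Function.Surjective f

/-- The extensions `f i : N → B i` can be amalgamated over `e : M → N`. -/
def Amalg {M N : K.Mod} (e : K.Hom M N) {ι : Type u} (B : ι → K.Mod)
    (f : ∀ i, K.Hom N (B i)) : Prop :=
  ∃ (Z : K.Mod) (w : ∀ i, K.Hom (B i) Z), ∀ i j (x : M.α), w i (f i (e x)) = w j (f j (e x))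

variable (K)

/-- Weak amalgamation: every member `M` has an extension `N` such that every family of extensions
of `N` can be amalgamated over `M`. -/
def WAP : Prop := ∀ M : K.Mod, ∃ (N : K.Mod) (e : K.Hom M N),
  ∀ (ι : Type u) (B : ι → K.Mod) (f : ∀ i, K.Hom N (B i)), Amalg e B f

/-- Amalgamation in the cardinal `l` over subsets of size at most `χ`: if `M` is a member of
cardinality `l`, `A` is a subset of `M` with at most `χ` elements and `f i : M → B i` are
extensions of `M` of cardinality `l` then the `B i` can be amalgamated over `A`. -/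
def APsmall (l χ : Cardinal.{u}) : Prop := ∀ M : K.Mod, #M.α = l → ∀ A : Set M.α, #A ≤ χ →
  ∀ (ι : Type u) (B : ι → K.Mod) (f : ∀ i, K.Hom M (B i)), (∀ i, #(B i).α = l) →
  ∃ (Z : K.Mod) (w : ∀ i, K.Hom (B i) Z), ∀ i j, ∀ x ∈ A, w i (f i x) = w j (f j x)

/-- The property `Q` of members passes to unions of increasing chains which are indexed by
well-ordered sets of at most `c` elements without maximum. -/
def ChainClosed (Q : K.Mod → Prop) (c : Cardinal.{u}) : Prop :=
  ∀ (J : Type u) [LinearOrder J] [WellFoundedLT J] [NoMaxOrder J] [Nonempty J], #J ≤ c →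
  ∀ (F : J → K.Mod) (m : ∀ a b, a ≤ b → K.Hom (F a) (F b)) (B : K.Mod)
    (s : ∀ a, K.Hom (F a) B), (∀ a b h x, s b (m a b h x) = s a x) →
    (∀ y : B.α, ∃ a x, s a x = y) → (∀ a, Q (F a)) → Q B

/-- The union of a system of substructures `M s` (`s` a finite subset of `I`) over the finite
subsets of `A`. -/
def _root_.Pool.Agent.AEC.unionOver {U : Type u} [L.Structure U] {I : Type u}
    (M : Finset I → L.Substructure U) (A : Set I) : L.Substructure U :=
  ⨆ s : {s : Finset I // (s : Set I) ⊆ A}, M s

theorem _root_.Pool.Agent.AEC.unionOver_mono {U : Type u} [L.Structure U] {I : Type u}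
    (M : Finset I → L.Substructure U) {A B : Set I} (h : A ⊆ B) :
    unionOver M A ≤ unionOver M B :=
  iSup_le fun s => le_iSup_of_le (⟨s.1, s.2.trans h⟩ : {s : Finset I // (s : Set I) ⊆ B}) le_rfl

/-- A chosen element of `κ.out`. -/
noncomputable def o : κ.out :=
  Classical.choice (Cardinal.mk_ne_zero_iff.1 (by
    rw [Cardinal.mk_out]
    intro h
    have := K.aleph0_le
    rw [h] at this
    exact absurd this (not_le.2 Cardinal.aleph0_pos)))

/-- A presentation system of the member `A`: small strong submodels `S s` (`s` a finite subset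
of `A`) containing `s`, increasing in `s`, with enumerations `f s : κ → S s`. -/
structure Sys (A : K.Mod) where
  S : Finset A.α → L.Substructure A.α
  emb : ∀ s, K.emb (S s).subtype
  mono : Monotone S
  sub : ∀ s : Finset A.α, (s : Set A.α) ⊆ (S s : Set A.α)
  f : Finset A.α → κ.out → A.α
  range : ∀ s, Set.range (f s) = (S s : Set A.α)
  sing : ∀ x : A.α, f {x} K.o = x

end AEC

/-- Positions. -/
abbrev Pt (X : Type u) (n : ℕ) : Type u := Finset (Fin n) × X

/-- Diagrams of the structure spanned by an `n`-tuple. -/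
structure Pat (L : FirstOrder.Language.{u, u}) (X : Type u) (n : ℕ) : Type u where
  eq : Pt X n → Pt X n → Prop
  rel : ∀ k, L.Relations k → (Fin k → Pt X n) → Prop
  fn : ∀ k, L.Functions k → (Fin k → Pt X n) → Pt X n → Prop

namespace AEC

variable {K : AEC L κ} {A : K.Mod}

/-- The element at the position `p` for the tuple `e`. -/
def Sys.val (T : K.Sys A) {n : ℕ} (e : Fin n ↪ A.α) (p : Pt κ.out n) : A.α :=
  T.f (p.1.map e) p.2

/-- The diagram of the tuple `e`. -/
def Sys.pat (T : K.Sys A) {n : ℕ} (e : Fin n ↪ A.α) : Pat L κ.out n where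
  eq p q := T.val e p = T.val e q
  rel _ R p := Structure.RelMap R (fun i => T.val e (p i))
  fn _ F p q := Structure.funMap F (fun i => T.val e (p i)) = T.val e q

variable (K)

/-- Coherent diagrams which are realized by tuples of distinct elements. -/
def PatSeq (p : ∀ n, Pat L κ.out n) : Prop :=
  ∀ n, ∃ (A : K.Mod) (T : K.Sys A) (e : Fin n ↪ A.α), ∀ (m : ℕ) (a : Fin m ↪o Fin n),
    T.pat (a.toEmbedding.trans e) = p m

/-- A template: a functor from the finite linear orders `Fin n` and their order embeddings to the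
members of size `≤ κ`, with a point of `obj 1` whose two images in `obj 2` are distinct. -/
structure Tmp where
  obj : ℕ → K.Mod
  map : ∀ {m n : ℕ}, (Fin m ↪o Fin n) → K.Hom (obj m) (obj n)
  map_id : ∀ (n : ℕ) (a : Fin n ↪o Fin n), (∀ i, a i = i) → ∀ x, map a x = x
  map_comp : ∀ {m n k : ℕ} (a : Fin m ↪o Fin n) (b : Fin n ↪o Fin k) (c : Fin m ↪o Fin k),
    (∀ i, c i = b (a i)) → ∀ x, map c x = map b (map a x)
  card_le : ∀ n, #(obj n).α ≤ κ
  pt : (obj 1).α
  pt_ne : ∀ a b : Fin 1 ↪o Fin 2, a 0 = 0 → b 0 = 1 → map a pt ≠ map b pt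

/-- An Ehrenfeucht-Mostowski functor: a functor from linear orders and order embeddings to the
members and `𝒦`-embeddings, with control of cardinalities and finite supports. -/
structure EM where
  obj : ∀ (I : Type u) [LinearOrder I], K.Mod
  map : ∀ {I J : Type u} [LinearOrder I] [LinearOrder J], (I ↪o J) → K.Hom (obj I) (obj J)
  map_id : ∀ (I : Type u) [LinearOrder I] (a : I ↪o I), (∀ i, a i = i) → ∀ x, map a x = x
  map_comp : ∀ {I J H : Type u} [LinearOrder I] [LinearOrder J] [LinearOrder H] (a : I ↪o J)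
    (b : J ↪o H) (c : I ↪o H), (∀ i, c i = b (a i)) → ∀ x, map c x = map b (map a x)
  card_le : ∀ (I : Type u) [LinearOrder I], #(obj I).α ≤ #I + κ
  le_card : ∀ (I : Type u) [LinearOrder I], #I ≤ #(obj I).α
  supp : ∀ (I : Type u) [LinearOrder I] (x : (obj I).α), ∃ (s : Finset I)
    (y : (obj (s : Set I)).α), map (OrderEmbedding.subtype fun i => i ∈ (s : Set I)) y = x

end AEC

/-- Linear orders on subsets of `X`. -/
structure LO (X : Type u) : Type u where
  s : Set X
  lo : LinearOrder s

attribute [instance] LO.lo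

namespace AEC

variable {K : AEC L κ}

/-- The possible directions of a small member `A`: embeddings of `A` into `EM(j)`, where `j` is a
linear order on a subset of `X`. -/
def EM.Sg (E : K.EM) (A : K.Mod) (X : Type u) : Type u := Σ j : LO X, K.Hom A (E.obj j.s)

/-- The directions of `e : A → B`. -/
def EM.D (E : K.EM) (X : Type u) {A B : K.Mod} (e : K.Hom A B) : Set (E.Sg A X) :=
  {σ | ∃ (I : Type u) (_ : LinearOrder I) (v : σ.1.s ↪o I) (g : K.Hom B (E.obj I)),
    ∀ x : A.α, g (e x) = E.map v (σ.2 x)}

end AEC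

end Pool.Agent.AEC
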