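import Pool.Agent.AEC.Defs

/-!
# Theorem S (sparse classes): definitions

The Gaifman graph of a relational structure, sparse structures, the gluing `W τ T` of `T` copies of
a small structure along a small set.
-/

set_option autoImplicit false

open FirstOrder FirstOrder.Language Cardinal

universe u

noncomputable section

namespace Pool.Agent.AEC

namespace S

section Graph

variable (L : FirstOrder.Language.{u, u}) {N : Type u} [L.Structure N]

/-- `x` and `y` are different and occur in a common tuple of a relation (Gaifman graph) -/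
def adj (x y : N) : Prop :=
  x ≠ y ∧ ∃ (n : ℕ) (R : L.Relations n) (v : Fin n → N),
    Structure.RelMap R v ∧ (∃ i, v i = x) ∧ ∃ j, v j = y

/-- `x` and `y` are different and occur in a common tuple of a relation whose entries are in `D` -/
def adjIn (D : Set N) (x y : N) : Prop :=
  x ≠ y ∧ ∃ (n : ℕ) (R : L.Relations n) (v : Fin n → N),
    Structure.RelMap R v ∧ (∀ i, v i ∈ D) ∧ (∃ i, v i = x) ∧ ∃ j, v j = y

/-- there is a path from `x` to `y` all of whose vertices after `x` are outside of `T` -/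
def con (T : Set N) (x y : N) : Prop :=
  Relation.ReflTransGen (fun a b => adj L a b ∧ b ∉ T) x y

/-- the component of `x` in the complement of `T` (for `x ∉ T`) -/
def cmp (T : Set N) (x : N) : Set N := {y | con L T x y}

/-- the elements with more than `κ` neighbours -/
def Sv (κ : Cardinal.{u}) (N : Type u) [L.Structure N] : Set N :=
  {x | κ < #{y : N // adj L x y}}

/-- the elements with at most `κ` images under automorphisms -/
def Xv (κ : Cardinal.{u}) (N : Type u) [L.Structure N] : Set N :=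
  {x | #{y : N // ∃ e : N ≃[L] N, e x = y} ≤ κ}

/-- Sparse structures: among more than `κ` elements there are always two which can be separated in
the Gaifman graph by at most `κ` other elements. -/
def Sparse (κ : Cardinal.{u}) (N : Type u) [L.Structure N] : Prop :=
  ∀ Z : Set N, κ < #Z → ∃ x ∈ Z, ∃ y ∈ Z, ∃ T : Set N, #T ≤ κ ∧ x ∉ T ∧ y ∉ T ∧ ¬ con L T x y

end Graph

/-- A small structure `P` with two disjoint subsets `A`, `S`: `A` is connected and attached to the
rest of `P` exactly along `S`. -/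
structure Tpl (L : FirstOrder.Language.{u, u}) (κ : Cardinal.{u}) where
  P : Type u
  [str : L.Structure P]
  A : Set P
  B : Set P
  card : #P ≤ κ
  ne : A.Nonempty
  dis : ∀ x ∈ B, x ∉ A
  loc : ∀ (n : ℕ) (R : L.Relations n) (v : Fin n → P), Structure.RelMap R v →
    (∃ i, v i ∈ A) → ∀ i, v i ∈ A ∨ v i ∈ B
  conn : ∀ a ∈ A, ∀ b ∈ A, con L Aᶜ a b
  nbr : ∀ s ∈ B, ∃ a ∈ A, adj L s a

attribute [instance] Tpl.str

variable {L : FirstOrder.Language.{u, u}} {κ : Cardinal.{u}}

/-- `P \ A` and a copy of `A` for every `t : T` -/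
def W (τ : Tpl L κ) (T : Type u) : Type u := {x : τ.P // x ∉ τ.A} ⊕ (T × τ.A)

/-- the elements of `P \ A` -/
def W.lo {τ : Tpl L κ} {T : Type u} (x : {x : τ.P // x ∉ τ.A}) : W τ T := Sum.inl x

/-- the elements of the copies of `A` -/
def W.hi {τ : Tpl L κ} {T : Type u} (t : T) (a : τ.A) : W τ T := Sum.inr (t, a)

/-- the projection to `P` -/
def W.pr {τ : Tpl L κ} {T : Type u} : W τ T → τ.P
  | Sum.inl x => x.1
  | Sum.inr y => y.2.1

/-- the index of the copy -/
def W.tag {τ : Tpl L κ} {T : Type u} : W τ T → Option T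
  | Sum.inl _ => none
  | Sum.inr y => some y.1

/-- a tuple is in a relation iff it meets at most one copy and its projection is in the relation -/
instance W.str [L.IsRelational] (τ : Tpl L κ) (T : Type u) : L.Structure (W τ T) where
  funMap := fun f _ => isEmptyElim f
  RelMap := fun R v => (∀ i j t t', (v i).tag = some t → (v j).tag = some t' → t = t') ∧
    Structure.RelMap R fun i => (v i).pr

/-- the map induced by a map of the index sets -/
def W.fn {τ : Tpl L κ} {T T' : Type u} (f : T → T') : W τ T → W τ T' :=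
  Sum.map id (Prod.map f id)

theorem W.fn_inj {τ : Tpl L κ} {T T' : Type u} {f : T → T'} (hf : Function.Injective f) :
    Function.Injective (W.fn (τ := τ) f) :=
  Sum.map_injective.2 ⟨Function.injective_id, hf.prodMap Function.injective_id⟩

theorem W.pr_fn {τ : Tpl L κ} {T T' : Type u} (f : T → T') (x : W τ T) :
    (W.fn f x).pr = x.pr := by
  rcases x with x | x <;> rfl

theorem W.tag_fn {τ : Tpl L κ} {T T' : Type u} (f : T → T') (x : W τ T) :
    (W.fn f x).tag = x.tag.map f := by
  rcases x with x | x <;> rfl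

theorem W.rel_fn [L.IsRelational] {τ : Tpl L κ} {T T' : Type u} {f : T → T'}
    (hf : Function.Injective f) {n : ℕ} (R : L.Relations n) (v : Fin n → W τ T) :
    Structure.RelMap R (fun i => W.fn f (v i)) ↔ Structure.RelMap R v := by
  change ((∀ i j t t', (W.fn f (v i)).tag = some t → (W.fn f (v j)).tag = some t' → t = t') ∧
      Structure.RelMap R fun i => (W.fn f (v i)).pr) ↔
      ((∀ i j t t', (v i).tag = some t → (v j).tag = some t' → t = t') ∧
      Structure.RelMap R fun i => (v i).pr)
  have h1 : (fun i => (W.fn f (v i)).pr) = fun i => (v i).pr :=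
    funext fun i => W.pr_fn _ _
  rw [h1]
  refine and_congr ?_ Iff.rfl
  constructor
  · intro h i j t t' hi hj
    apply hf
    apply h i j
    · rw [W.tag_fn, hi]; rfl
    · rw [W.tag_fn, hj]; rfl
  · intro h i j t t' hi hj
    rw [W.tag_fn, Option.map_eq_some_iff] at hi hj
    obtain ⟨a, ha, rfl⟩ := hi
    obtain ⟨b, hb, rfl⟩ := hj
    rw [h i j a b ha hb]

/-- the embedding induced by an injection of the index sets -/
def W.emb [L.IsRelational] {τ : Tpl L κ} {T T' : Type u} (f : T ↪ T') : W τ T ↪[L] W τ T' where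
  toFun := W.fn f
  inj' := W.fn_inj f.injective
  map_fun' := fun f _ => isEmptyElim f
  map_rel' := fun R v => W.rel_fn f.injective R v

theorem W.fn_fn {τ : Tpl L κ} {T T' T'' : Type u} (f : T → T') (g : T' → T'') (x : W τ T) :
    W.fn g (W.fn f x) = W.fn (g ∘ f) x := by
  rcases x with x | x <;> rfl

theorem W.fn_id {τ : Tpl L κ} {T : Type u} (x : W τ T) : W.fn (id : T → T) x = x := by
  rcases x with x | x <;> rfl

/-- the isomorphism induced by a bijection of the index sets -/
def W.eqv [L.IsRelational] {τ : Tpl L κ} {T T' : Type u} (e : T ≃ T') : W τ T ≃[L] W τ T' where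
  toFun := W.fn e
  invFun := W.fn e.symm
  left_inv := fun x => by
    rw [W.fn_fn]
    have h : e.symm ∘ e = (id : T → T) := funext fun t => e.symm_apply_apply t
    rw [h, W.fn_id]
  right_inv := fun x => by
    rw [W.fn_fn]
    have h : e ∘ e.symm = (id : T' → T') := funext fun t => e.apply_symm_apply t
    rw [h, W.fn_id]
  map_fun' := fun f _ => isEmptyElim f
  map_rel' := fun R v => W.rel_fn e.injective R v

/-- The template `τ` belongs to the class `K`: the structures `W τ T` with `κ ≤ #T` are members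
and the maps induced by injections are `K`-embeddings. -/
def Tpl.OK [L.IsRelational] (K : AEC L κ) (τ : Tpl L κ) : Prop :=
  ∀ (T T' : Type u) (f : T ↪ T'), κ ≤ #T → K.emb (W.emb (τ := τ) f)

/-- `y` is a good point of the extension `f : M → N` of `M ≃ W τ T`: it lies in a new copy of `A`
attached to `f(M)` along `B` exactly as the old ones. -/
def Good [L.IsRelational] (τ : Tpl L κ) {T M N : Type u} [L.Structure M] [L.Structure N]
    (f : M ↪[L] N) (φ : W τ T ≃[L] M) (y : N) : Prop :=
  ∃ δ : τ.A → N, Function.Injective δ ∧ (∃ a, δ a = y) ∧ (∀ a, δ a ∉ Set.range f) ∧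
    (∀ (n : ℕ) (R : L.Relations n) (v : Fin n → N), Structure.RelMap R v →
      (∃ i a, v i = δ a) → ∀ i, (∃ a, v i = δ a) ∨
        ∃ s : {x : τ.P // x ∉ τ.A}, s.1 ∈ τ.B ∧ v i = f (φ (W.lo s))) ∧
    ∀ (n : ℕ) (R : L.Relations n) (v : Fin n → τ.P) (w : Fin n → N),
      (∀ i, (∃ h : v i ∈ τ.A, w i = δ ⟨v i, h⟩) ∨
        ∃ h : v i ∉ τ.A, v i ∈ τ.B ∧ w i = f (φ (W.lo ⟨v i, h⟩))) →
      (Structure.RelMap R v ↔ Structure.RelMap R w)

/-- A member `N` of the class with more than `κ` components of `N \ S` which are conjugate under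
automorphisms fixing the small set `S`, the set of neighbours of each of them. -/
structure Orb (K : AEC L κ) where
  N : K.Mod
  B : Set N.α
  C : Set N.α
  ι : Type u
  e : ι → (N.α ≃[L] N.α)
  k₀ : ι
  hk₀ : ∀ x ∈ C, e k₀ x = x
  ne : C.Nonempty
  big : κ < #ι
  small : #B ≤ κ
  fix : ∀ k, ∀ s ∈ B, e k s = s
  disj : ∀ k k' x y, x ∈ C → y ∈ C → e k x = e k' y → k = k'
  dis : ∀ x ∈ B, x ∉ C
  closed : ∀ x ∈ C, ∀ y, adj L x y → y ∈ C ∨ y ∈ B
  conn : ∀ x ∈ C, ∀ y ∈ C, con L Cᶜ x y
  nbr : ∀ s ∈ B, ∃ y ∈ C, adj L s y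

end S

namespace AEC

variable {L : FirstOrder.Language.{u, u}} {κ : Cardinal.{u}} (K : AEC L κ)

/-- Amalgamation in the cardinal `χ`. -/
def AP (χ : Cardinal.{u}) : Prop :=
  ∀ (M₀ M₁ M₂ : K.Mod) (f₁ : K.Hom M₀ M₁) (f₂ : K.Hom M₀ M₂), #M₀.α = χ → #M₁.α = χ →
    #M₂.α = χ → ∃ (N : K.Mod) (g₁ : K.Hom M₁ N) (g₂ : K.Hom M₂ N), ∀ x, g₁ (f₁ x) = g₂ (f₂ x)

/-- All members are sparse. -/
def IsSparse : Prop := ∀ M : K.Mod, S.Sparse L κ M.α

end AEC

end Pool.Agent.AEC
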