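import Pool.Agent.AEC.DefsS

/-!
# Theorem S, second form: the definition
-/

set_option autoImplicit false

open FirstOrder FirstOrder.Language Cardinal

universe u

namespace Pool.Agent.AEC.S

/-- `N` contains a set of `l` elements such that no two elements of this set can be separated in the
Gaifman graph of `N` by fewer than `l` other elements. -/
def Dense (L : FirstOrder.Language.{u, u}) (l : Cardinal.{u}) (N : Type u) [L.Structure N] : Prop :=
  ∃ Z : Set N, #Z = l ∧ ∀ x ∈ Z, ∀ y ∈ Z, x ≠ y → ∀ T : Set N, #T < l → x ∉ T → y ∉ T →
    con L T x y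

end Pool.Agent.AEC.S
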