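import Pool.Agent.AEC.Defs

/-!
# Squad AEC (problem MP_23d7af_lc): definitions for part Z (density of amalgamation bases)
-/

open FirstOrder FirstOrder.Language Cardinal Set

universe u

namespace Pool.Agent.AEC

variable {L : FirstOrder.Language.{u, u}} {κ : Cardinal.{u}}

namespace AEC

variable {K : AEC L κ}

/-- `N` is an amalgamation base in its own cardinality: any two extensions of `N` of the
cardinality of `N` can be amalgamated over `N`. -/
def IsBase (N : K.Mod) : Prop :=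
  ∀ (B₁ B₂ : K.Mod) (f₁ : K.Hom N B₁) (f₂ : K.Hom N B₂), #B₁.α = #N.α → #B₂.α = #N.α →
    ∃ (Z : K.Mod) (w₁ : K.Hom B₁ Z) (w₂ : K.Hom B₂ Z), ∀ x, w₁ (f₁ x) = w₂ (f₂ x)

end AEC

/-- Facts about the elements of `Ω`: `x` is an element, `R x`, `f x = y`. -/
inductive Fact (L : FirstOrder.Language.{u, u}) (Ω : Type u) : Type u
  | el : Ω → Fact L Ω
  | rel : (n : ℕ) → L.Relations n → (Fin n → Ω) → Fact L Ω
  | fn : (n : ℕ) → L.Functions n → (Fin n → Ω) → Ω → Fact L Ω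

/-- The facts which are true in the structure `A`, moved to `Ω` by the map `φ`. -/
def dg {Ω : Type u} (A : Type u) [L.Structure A] (φ : A → Ω) : Set (Fact L Ω) :=
  {F | match F with
    | .el x => ∃ a, φ a = x
    | .rel n R x => ∃ y : Fin n → A, Structure.RelMap R y ∧ ∀ i, φ (y i) = x i
    | .fn n f x b => ∃ y : Fin n → A, (∀ i, φ (y i) = x i) ∧ φ (Structure.funMap f y) = b}

/-- The elements of the diagram `D`. -/
def pts {Ω : Type u} (D : Set (Fact L Ω)) : Set Ω := {x | Fact.el x ∈ D}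

namespace AEC

/-- A member of the class on the subset `pts D` of `Ω` with diagram `D`. -/
structure Plc (K : AEC L κ) {Ω : Type u} (D : Set (Fact L Ω)) where
  A : K.Mod
  φ : A.α → Ω
  inj : Function.Injective φ
  eq : dg A.α φ = D

variable (K : AEC L κ)

/-- `D ≤_𝒦 D'` for diagrams of members of the class. -/
def Ext {Ω : Type u} (D D' : Set (Fact L Ω)) : Prop :=
  ∃ (P : K.Plc D) (P' : K.Plc D') (f : K.Hom P.A P'.A), ∀ x, P'.φ (f x) = P.φ x

/-- The extensions `D₀`, `D₁` of `D` cannot be amalgamated over `D`. -/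
def Inc {Ω : Type u} (D D₀ D₁ : Set (Fact L Ω)) : Prop :=
  ∀ (Z : K.Mod) (P₀ : K.Plc D₀) (P₁ : K.Plc D₁) (w₀ : K.Hom P₀.A Z) (w₁ : K.Hom P₁.A Z),
    ∃ x y, P₀.φ x = P₁.φ y ∧ P₀.φ x ∈ pts D ∧ w₀ x ≠ w₁ y

/-- A full binary tree of members over `M`, of height `I`: `G η` is the union of the branch `η`,
placed in `Ω` by `ψ η`; `P η i ⊆ Ω` is the set of elements of the node `η ↾ i`. -/
structure Tree (M : K.Mod) (I : Type u) [LinearOrder I] where
  Ω : Type u
  G : (I → Bool) → K.Mod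
  e : ∀ η, K.Hom M (G η)
  ψ : ∀ η, (G η).α → Ω
  P : (I → Bool) → I → Set Ω
  inj : ∀ η, Function.Injective (ψ η)
  card_Ω : #Ω ≤ #I
  card_P : ∀ η i, #(P η i) ≤ max #M.α #(Set.Iio i)
  local' : ∀ η ν i, (∀ j < i, η j = ν j) → P η i = P ν i
  cont : ∀ η i, Order.IsSuccLimit i → P η i = ⋃ j : Set.Iio i, P η j
  inc : ∀ η ν i, (∀ j < i, η j = ν j) → η i ≠ ν i →
    ∀ (Z : K.Mod) (f : K.Hom (G η) Z) (g : K.Hom (G ν) Z),
      ∃ x y, ψ η x = ψ ν y ∧ ψ η x ∈ P η i ∧ f x ≠ g y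

/-- Embeddings of `A` into `Q` which extend to `B`. -/
def Dq (Q : K.Mod) {A B : K.Mod} (e : K.Hom A B) : Set (K.Hom A Q) :=
  {h | ∃ g : K.Hom B Q, ∀ x, g (e x) = h x}

end AEC

end Pool.Agent.AEC
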