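import Pool.Agent.AEC.Defs

/-!
# Squad AEC (problem MP_23d7af_lc): statements, part B (base) and part W (theorems W1 and W2)

Every statement is a definition `XxxStmt : Prop`; its docstring contains a complete proof.  A row
`XXX` asks for a theorem `xxx : (hypotheses) → XxxStmt`, where the hypotheses are the statements
listed in the column `uses` of the table `aec`.
-/

open FirstOrder FirstOrder.Language Cardinal Set

universe u

namespace Pool.Agent.AEC

/-! ## Unions of chains and directed unions -/

/-- **REL** (relative smoothness).  *Proof.*  For substructures `S ≤ T` of `U` let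
`S' = S.comap T.subtype.toHom`, a substructure of the structure `T`.  There is an isomorphism
`e : S' ≃[L] S`, `x ↦ ⟨x.1.1, _⟩`, with `(inclusion h) ∘ e = S'.subtype`; since `e`, `e.symm` are
`𝒦`-embeddings as soon as one of `S, S'` is in the class (`K.iso`, `K.dom`), `K.emb (inclusion h)`
iff `K.emb S'.subtype`.  The family `S' i` is monotone, and by `Substructure.mem_iSup_of_directed`
(`I` is nonempty and linearly ordered; for a limit `i` the type `Set.Iio i` is nonempty because `i`
is not minimal) `⨆ i, S' i = (⨆ i, S i)'` and `S' i = ⨆ j : Iio i, S' j` for limits `i`.  Apply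
`K.smooth` in the structure `T`. -/
def RelStmt : Prop := ∀ (L : FirstOrder.Language.{u, u}) (κ : Cardinal.{u}) (K : AEC L κ)
  (U : Type u) [L.Structure U] (I : Type u) [LinearOrder I] [WellFoundedLT I] [Nonempty I]
  (S : I → L.Substructure U) (T : L.Substructure U), Monotone S → ∀ (h : ∀ i, S i ≤ T),
  (∀ i, K.emb (Substructure.inclusion (h i))) →
  (∀ i, Order.IsSuccLimit i → S i = ⨆ j : Set.Iio i, S j) →
  K.emb (Substructure.inclusion (iSup_le h))

/-- **FIN** (systems indexed by finite subsets; uses REL).  *Proof.*  Strong induction on `#B`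
(for all `A ⊆ B`).  Write `M(A) = unionOver M A`; its elements are the elements of the `M s`,
`s ⊆ A` finite (`mem_iSup_of_directed`).  If `B` is finite then `M(B) = M B.toFinset`,
`M(A) = M A.toFinset` and the claim is the hypothesis (rewrite along equalities of substructures:
if `S = S'`, `T = T'` then `K.emb (inclusion (h : S ≤ T)) ↔ K.emb (inclusion (h' : S' ≤ T'))` by
`subst`).  Let `B` be infinite, `W = (#B).ord.ToType`, `e : W ≃ B`, `B_w = {e v | v < w}`.  Then
`#B_w < #B` (`Cardinal.mk_Iio_ord_toType`), so by induction `M(B_v) ≤_K M(B_w)` for `v ≤ w`; if `w`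
is a limit then every finite subset of `B_w` lies in some `B_v`, `v < w` (it has a largest index),
so `M(B_w) = ⨆_{v<w} M(B_v)`; as `W` has no maximum, also `M(B) = ⨆_w M(B_w)`.  By `K.chain`,
`M(B_w) ≤_K M(B)`.  Now let `A ⊆ B`.  By induction `M(A ∩ B_w) ≤_K M(B_w)`, hence
`M(A ∩ B_w) ≤_K M(B)` (`K.comp`); the family `w ↦ M(A ∩ B_w)` is monotone and continuous for the
same reason, and its union is `M(A)`.  REL gives `M(A) ≤_K M(B)`. -/
def FinStmt : Prop := ∀ (L : FirstOrder.Language.{u, u}) (κ : Cardinal.{u}) (K : AEC L κ)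
  (U : Type u) [L.Structure U] (I : Type u) (M : Finset I → L.Substructure U)
  (mono : Monotone M), (∀ s t (h : s ≤ t), K.emb (Substructure.inclusion (mono h))) →
  ∀ (A B : Set I) (h : A ⊆ B), K.emb (Substructure.inclusion (unionOver_mono M h))

/-- **DIR** (directed unions; uses FIN).  *Proof.*  Choose `v : Finset ι → ι` with `i ≤ v s` for
`i ∈ s` and `v t ≤ v s` for `t ⊆ s`: by strong recursion (`Finset.strongInduction` or by recursion
on the cardinality), `v s` is an upper bound of the finite set `s ∪ {v t | t ⊂ s}`.  Put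
`M s = S (v s)`; `M` is monotone and `M s ≤_K M t` for `s ⊆ t`.  The union of all `M s` is
`⨆ i, S i`, since `i ≤ v {i}`.  By FIN (with `A = ↑s`, `B = univ`, and `unionOver M ↑s = M s`),
`M s ≤_K ⨆ i, S i`.  Finally `S i ≤_K S (v {i}) = M {i} ≤_K ⨆ i, S i`. -/
def DirStmt : Prop := ∀ (L : FirstOrder.Language.{u, u}) (κ : Cardinal.{u}) (K : AEC L κ)
  (U : Type u) [L.Structure U] (ι : Type u) [Preorder ι] [IsDirectedOrder ι] [Nonempty ι]
  (S : ι → L.Substructure U) (mono : Monotone S),
  (∀ i j (h : i ≤ j), K.emb (Substructure.inclusion (mono h))) →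
  ∀ i, K.emb (Substructure.inclusion (le_iSup S i))

/-- **DIS** (smoothness for directed unions; uses FIN).  *Proof.*  As in DIR choose
`v : Finset ι → ι` with `S i ≤ S (v s)` for `i ∈ s` and `S (v t) ≤ S (v s)` for `t ⊆ s`.  Apply FIN
to `U = N`, `I = Option ι`, `M s = ⊤` if `none ∈ s` and `M s = S (v s.eraseNone)` otherwise
(`Finset.eraseNone`).  The inclusions are `𝒦`-embeddings: for `S i ≤ S j` by coherence, because
`(S j).subtype ∘ inclusion = (S i).subtype`; for `S i ≤ ⊤` because `⊤ ≃[L] N`
(`Substructure.topEquiv`) carries it to `(S i).subtype`.  With `A = range some`, `B = univ`: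
`unionOver M A = ⨆ i, S i` and `unionOver M univ = ⊤`.  So `⨆ i, S i ≤_K ⊤`; compose with
`⊤ ≃[L] N`. -/
def DisStmt : Prop := ∀ (L : FirstOrder.Language.{u, u}) (κ : Cardinal.{u}) (K : AEC L κ)
  (N : Type u) [L.Structure N] (ι : Type u) [Nonempty ι] (S : ι → L.Substructure N),
  Directed (· ≤ ·) S → (∀ i, K.emb (S i).subtype) → K.emb (⨆ i, S i).subtype

/-- **DLM** (direct limits; uses DIR).  *Proof.*  Let `G` be
`FirstOrder.Language.DirectLimit (fun i => (F i).α) (fun i j h => (m i j h).toEmb)`; the instance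
`DirectedSystem` comes from the two hypotheses on `m`.  Let `s i = DirectLimit.of`, and
`S i = range (s i)`, a substructure of `G`.  For `i ≤ j` the inclusion `S i ≤ S j` is, up to the
isomorphisms `F i ≃ S i`, `F j ≃ S j` (`Embedding.equivRange`), the map `m i j`, so it is a
`𝒦`-embedding.  `⨆ i, S i = ⊤` (`DirectLimit.iSup_range_of_eq_top`).  By DIR the inclusion of
`S i` into `⨆ i, S i = ⊤ ≃ G` is a `𝒦`-embedding, so is `s i`, and `G` is in the class. -/
def DlmStmt : Prop := ∀ (L : FirstOrder.Language.{u, u}) (κ : Cardinal.{u}) (K : AEC L κ)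
  (ι : Type u) [Preorder ι] [IsDirectedOrder ι] [Nonempty ι] (F : ι → K.Mod)
  (m : ∀ i j, i ≤ j → K.Hom (F i) (F j)), (∀ i x, m i i le_rfl x = x) →
  (∀ i j k (hij : i ≤ j) (hjk : j ≤ k) x, m j k hjk (m i j hij x) = m i k (hij.trans hjk) x) →
  ∃ (G : K.Mod) (s : ∀ i, K.Hom (F i) G), (∀ i j h x, s j (m i j h x) = s i x) ∧
    ∀ y : G.α, ∃ i x, s i x = y

/-- **DLU** (universal property of unions; uses DIS).  *Proof.*  Every `y` in `G` is `s i x`; put
`w y = t i x`.  This is well defined: if `s i x = s j x'` take `k ≥ i, j` and `y'` with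
`s k y' = s i x = s j x'`; then `t k y' = t i x` and `t k y' = t j x'`.  A finite tuple of elements
of `G` comes from a single `F i` (directedness), so `w` commutes with functions and preserves and
reflects relations, because `s i` and `t i` are embeddings; `w` is injective because the `t i` are.
So `w` is an embedding of `L`-structures.  Its range is `⨆ i, range (t i)`, a directed union of
strong substructures of `B` (`Hom.emb_range`), hence strong by DIS, and `w` is the composition of
the isomorphism of `G` onto its range and the inclusion of the range, so it is a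
`𝒦`-embedding. -/
def DluStmt : Prop := ∀ (L : FirstOrder.Language.{u, u}) (κ : Cardinal.{u}) (K : AEC L κ)
  (ι : Type u) [Preorder ι] [IsDirectedOrder ι] [Nonempty ι] (F : ι → K.Mod)
  (G : K.Mod) (s : ∀ i, K.Hom (F i) G), (∀ i j, i ≤ j → ∀ x, ∃ y, s j y = s i x) →
  (∀ y : G.α, ∃ i x, s i x = y) → ∀ (B : K.Mod) (t : ∀ i, K.Hom (F i) B),
  (∀ i j, i ≤ j → ∀ x y, s j y = s i x → t j y = t i x) →
  ∃ w : K.Hom G B, ∀ i x, w (s i x) = t i x

/-! ## Presentation systems, homogeneous sets, templates -/

/-- **PRS** (presentation systems; no hypotheses).  *Proof.*  Fix `x₀` in `A`.  By strong recursion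
on the finite set `s` choose with `K.ls` a strong substructure `S s` of `A` with
`{x₀} ∪ s ∪ ⋃_{t ⊂ s} S t ⊆ S s` and `#(S s) ≤ κ` (the set on the left has at most `κ` elements
by induction, and `κ + κ = κ`).  (Recursion: `Finset.strongInduction` into
`{S : L.Substructure A.α // K.emb S.subtype ∧ #S ≤ κ ∧ x₀ ∈ S ∧ ↑s ⊆ S}`, with
`Finset.strongInduction_eq`.)  Since `S s` is nonempty and `#(S s) ≤ κ = #κ.out` there is
`f s : κ.out → A` with range `S s`; for `s = {x}` we have `x ∈ S {x}` and we may change `f {x}` at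
one or two places so that `f {x} K.o = x` and the range is the same (compose with a swap). -/
def PrsStmt : Prop := ∀ (L : FirstOrder.Language.{u, u}) (κ : Cardinal.{u}) (K : AEC L κ)
  (A : K.Mod), Nonempty A.α → Nonempty (K.Sys A)

/-- **EHS** (end-homogeneous sequences; no hypotheses).  `W` is a well-ordered set without maximum
and `c` is a colouring of the finite subsets of `X` with colours in `C`.  If
`#X > #(Σ i : W, (Finset (Iio i) → C))` there is an injective sequence `z : W → X` such that for
every finite `s ⊆ W` and all `i, j` above `s` the sets `z(s) ∪ {z i}` and `z(s) ∪ {z j}` have the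
same colour.
*Proof.*  Fix a well-order of `X`.  For `x` in `X` define `z_x : W → X` by well-founded recursion:
`z_x(i)` is the least element of
`Cnd(x,i) = {y | y = x ∨ (y ∉ z_x(Iio i) ∧ ∀ s : Finset (Iio i), c(z_x(s) ∪ {y}) =
c(z_x(s) ∪ {x}))}`.  If there is an `x` such that `z_x(i) ≠ x` for all `i` then `z = z_x` works:
`z_x(i)` satisfies the second condition, so `z_x` is injective and
`c(z(s) ∪ {z i}) = c(z(s) ∪ {x})` for all `i` above `s`.  Otherwise let `l(x)` be the least `i`
with `z_x(i) = x`, and `t(x) : Finset (Iio (l x)) → C`, `t(x)(s) = c(z_x(s) ∪ {x})`.  The map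
`x ↦ (l(x), t(x))` is injective, which contradicts the cardinality assumption: let `l(x) = l(x') =
i` and `t(x) = t(x')`.  By induction `z_x(j) = z_{x'}(j)` for `j ≤ i`: assume this below `j`.  If
`j < i` then `y = z_x(j) ≠ x` satisfies the second condition for `x`, hence (by `t(x) = t(x')`) for
`x'`, so `y ∈ Cnd(x',j)` and `z_{x'}(j) ≤ y`; by symmetry `z_x(j) = z_{x'}(j)`.  If `j = i`, then
`x` satisfies the second condition for `x'` at `i` (`x ≠ z_x(k)` for `k < i` by minimality of `i`),
so `x' = z_{x'}(i) ≤ x`, and by symmetry `x = x'`. -/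
def EhsStmt : Prop := ∀ (W C X : Type u) [LinearOrder W] [WellFoundedLT W] [NoMaxOrder W]
  (c : Set X → C), #(Σ i : W, (Finset (Set.Iio i) → C)) < #X →
  ∃ z : W → X, Function.Injective z ∧ ∀ (s : Finset W) (i j : W), (∀ a ∈ s, a < i) →
    (∀ a ∈ s, a < j) → c (z '' (s : Set W) ∪ {z i}) = c (z '' (s : Set W) ∪ {z j})

/-- **ERD** (Erdos-Rado, qualitative; uses EHS).  *Proof.*  Induction on `n` (for all `C`, `μ`).
For `n = 0` take `ν = μ`, `Y = univ`.  Step: let `μ' = max ν(n, C, μ) ℵ₀`, `W = μ'.ord.ToType`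
(well-ordered, no maximum, `#W = μ'`) and `ν = Order.succ #(Σ i : W, (Finset (Iio i) → C))`.  Given
`X` with `ν ≤ #X` and `c`, EHS (applied to the colouring which sends the finite set `T` to
`c T.toFinset` and infinite sets to anything) gives `z : W → X`.  Colour a finite `s ⊆ W` by
`c'(s) = c(z(s) ∪ {z i})` for some (any) `i` above `s`.  By induction there is `Y' ⊆ W`,
`μ ≤ #Y'`, homogeneous for `c'` on the `n`-subsets.  `Y = z(Y')` is homogeneous for `c` on the
`(n+1)`-subsets: such a set is `z(s ∪ {i})` with `s ⊆ Y'`, `#s = n`, `i ∈ Y'` above `s`, and its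
colour is `c'(s)`. -/
def ErdStmt : Prop := ∀ (n : ℕ) (C : Type u) (μ : Cardinal.{u}), ∃ ν : Cardinal.{u},
  ∀ (X : Type u), ν ≤ #X → ∀ c : Finset X → C, ∃ Y : Set X, μ ≤ #Y ∧
  ∀ s t : Finset X, (s : Set X) ⊆ Y → (t : Set X) ⊆ Y → s.card = n → t.card = n → c s = c t

namespace AEC

/-- `p m`, `m < n`, are the diagrams of the increasing `m`-tuples of large sets. -/
def Good {L : FirstOrder.Language.{u, u}} {κ : Cardinal.{u}} (K : AEC L κ) (n : ℕ)
    (p : ∀ m, Pat L κ.out m) : Prop :=
  ∀ μ : Cardinal.{u}, ∃ (A : K.Mod) (T : K.Sys A) (_ : LinearOrder A.α) (Y : Set A.α),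
    μ ≤ #Y ∧ ∀ m < n, ∀ e : Fin m ↪o A.α, (∀ i, e i ∈ Y) → T.pat e.toEmbedding = p m

end AEC

/-- **TPS** (extension of the template by one diagram; uses ERD).  *Proof.*  For a cardinal `μ` and
`q : Pat L κ.out n` let `P(μ,q)` be: there are `A`, `T`, a linear order of `A` and `Y ⊆ A` with
`μ ≤ #Y`, such that the diagrams of increasing `m`-tuples of `Y` are `p m` for `m < n` and `q` for
`m = n`.  (1) For every `μ` there is `q` with `P(μ,q)`: let `ν` be as in ERD for `n`,
`C = Pat L κ.out n` and `μ`; take `A, T, Y` for `ν` by `K.Good n p`, colour a finite subset `s` of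
(the type) `Y` with `n` elements by the diagram of its increasing enumeration
(`Finset.orderEmbOfFin`) and other finite sets by a fixed element of `C` (`C` is inhabited), and
let `Y' ⊆ Y` be homogeneous with `μ ≤ #Y'`; take for `q` the common colour (any `q` if `Y'` has no
`n`-subset); an increasing `e : Fin n ↪o A` with values in `Y'` is the increasing enumeration of
its image (`Finset.orderEmbOfFin_unique`).  (2) `P(μ,q)` and `μ' ≤ μ` imply `P(μ',q)`.  (3) If for
every `q` there was `μ_q` with not `P(μ_q,q)`, take `μ = ⨆ q, μ_q` (bounded: `Pat L κ.out n` is a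
type in the universe `u`, `Cardinal.bddAbove_range`) and `q` by (1): contradiction.  So there is
`q` with `P(μ,q)` for all `μ`, which is the claim. -/
def TpsStmt : Prop := ∀ (L : FirstOrder.Language.{u, u}) (κ : Cardinal.{u}) (K : AEC L κ)
  (n : ℕ) (p : ∀ m, Pat L κ.out m), K.Good n p →
  ∃ q : Pat L κ.out n, K.Good (n + 1) (Function.update p n q)

/-- **TPA** (coherent diagrams; uses PRS, TPS).  *Proof.*  `K.Good 0 p` holds for every `p`: given
`μ`, take `A` with `max μ 1 ≤ #A`, `T` by PRS, `Y = univ`, any linear order on `A`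
(`linearOrderOfSTO WellOrderingRel` or `IsWellOrder.linearOrder WellOrderingRel`).  By recursion
with TPS get `p^(n)` with `K.Good n p^(n)` and `p^(n+1) = update p^(n) n q_n`; let `p n = q_n`.
Since `K.Good n p` depends only on `p m`, `m < n`, we have `K.Good n p` for all `n`.  Given `n`
apply `K.Good (n+1) p` with `μ = ℵ₀`: `Y` has a subset with `n` elements, let `e : Fin n ↪o A` be
its increasing enumeration.  For `a : Fin m ↪o Fin n` the composition `a.trans e : Fin m ↪o A` is
increasing with values in `Y` and `m ≤ n`, so its diagram is `p m`. -/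
def TpaStmt : Prop := ∀ (L : FirstOrder.Language.{u, u}) (κ : Cardinal.{u}) (K : AEC L κ),
  K.ArbLarge → ∃ p : ∀ n, Pat L κ.out n, K.PatSeq p

/-- **TPB** (from coherent diagrams to a template; no hypotheses).  *Proof.*  Choose `A_n`, `T_n`,
`e_n` as in `PatSeq`; with `a = id` the diagram of `e_n` is `p n`.  Write `V_n(P) = T_n.val e_n P`
for a position `P ∈ Pt κ.out n`.  Let `obj n` be the strong substructure
`T_n.S (univ.map e_n)` of `A_n`; its elements are the `V_n(univ, i)`, and all `V_n(P)` belong to it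
(`T_n.range`, `T_n.mono`).  For `a : Fin m ↪o Fin n` and `P = (t,i) ∈ Pt κ.out m` let
`aP = (t.map a, i)`; then `T_n.val (a.toEmbedding.trans e_n) P = V_n(aP)` (`Finset.map_map`).  The
diagrams of `a.toEmbedding.trans e_n` and `e_m` are both `p m`, so: `V_m(P) = V_m(Q)` iff
`V_n(aP) = V_n(aQ)`; `R(V_m(P_1), ...)` iff `R(V_n(aP_1), ...)`; `F(V_m(P_1), ...) = V_m(Q)` iff
`F(V_n(aP_1), ...) = V_n(aQ)`.  Hence there is a unique embedding of `L`-structures
`g : obj m → A_n` with `g(V_m(P)) = V_n(aP)` for all `P`.  Its range is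
`{V_n(a(univ,i)) | i} = T_n.S ((univ.map a).map e_n)`, a strong substructure of `A_n`, so `g` is a
`𝒦`-embedding, and as its range lies in `obj n` it factors through a `𝒦`-embedding
`map a : obj m → obj n` (`Hom.exists_factor`) with `map a (V_m(P)) = V_n(aP)`.  Functoriality:
check on the elements `V_m(univ,i)`.  `#(obj n) ≤ #κ.out = κ`.  `pt = V_1(univ, K.o) = e_1 0` by
`T_1.sing`, and for `a : Fin 1 ↪o Fin 2`, `map a pt = V_2({a 0}, K.o) = e_2 (a 0)` by
`T_2.sing`; `e_2 0 ≠ e_2 1`. -/
def TpbStmt : Prop := ∀ (L : FirstOrder.Language.{u, u}) (κ : Cardinal.{u}) (K : AEC L κ)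
  (p : ∀ n, Pat L κ.out n), K.PatSeq p → Nonempty K.Tmp

/-- **EMX** (from a template to an Ehrenfeucht-Mostowski functor; uses DLM, DLU).  *Proof.*  For
linear orders `I`, `J`, `v : I ↪o J` and finite sets `s ⊆ I`, `t ⊆ J` with `v(s) ⊆ t` there is a
unique `ρ : Fin s.card ↪o Fin t.card` with `t.orderEmbOfFin rfl (ρ i) = v (s.orderEmbOfFin rfl i)`
(`Finset.orderIsoOfFin`); these maps compose.  Let `obj I`, `σ_I s : T.obj s.card → obj I`
(`s : Finset I`) be the direct limit (DLM) of the system `s ↦ T.obj s.card` with the maps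
`T.map ρ` for `v = id`, `s ⊆ t`.  For `v : I ↪o J` the maps
`σ_J (s.map v) ∘ T.map ρ : T.obj s.card → obj J` are compatible, so by DLU there is
`map v : obj I → obj J` with `map v (σ_I s x) = σ_J (s.map v) (T.map ρ x)`, and then
`map v (σ_I s x) = σ_J t (T.map ρ x)` for all finite `t ⊇ v(s)`.  Functoriality: every element is
`σ_I s x`, use uniqueness of `ρ`.  Cardinality: `#(obj I) ≤ Σ_{s : Finset I} #(T.obj s.card) ≤
#(Finset I) * κ ≤ #I + κ` (`κ` infinite).  `#I ≤ #(obj I)`: the elements
`σ_I {i} (T.map ρ pt)` (`ρ : Fin 1 ↪o Fin ({i} : Finset I).card`) are distinct by `pt_ne`, as one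
sees in `T.obj ({i,j} : Finset I).card`, `i < j`.  Support: `σ_I s x` is the image of
`σ_J s.attach' (T.map ρ x)` where `J` is the subset `s` with the induced order and `s.attach'` is
the finset of all its elements. -/
def EmxStmt : Prop := ∀ (L : FirstOrder.Language.{u, u}) (κ : Cardinal.{u}) (K : AEC L κ),
  Nonempty K.Tmp → Nonempty K.EM

/-- **SPT** (small supports; no hypotheses).  *Proof.*  For every `x` in `A` choose by `E.supp` a
finite set `s_x ⊆ I` such that `g x` is in the range of
`E.map (OrderEmbedding.subtype (· ∈ ↑s_x))`.  Let `s = ⋃ s_x`; `#s ≤ #A * ℵ₀ ≤ #A + ℵ₀`.  Since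
the embedding of `s_x` into `I` factors through `s`, every `g x` is in the range of
`E.map (OrderEmbedding.subtype (· ∈ s))` (`E.map_comp`); apply `Hom.exists_factor`. -/
def SptStmt : Prop := ∀ (L : FirstOrder.Language.{u, u}) (κ : Cardinal.{u}) (K : AEC L κ)
  (E : K.EM) (A : K.Mod) (I : Type u) [LinearOrder I] (g : K.Hom A (E.obj I)),
  ∃ s : Set I, #s ≤ #A.α + ℵ₀ ∧ ∃ h : K.Hom A (E.obj s),
    ∀ x, E.map (OrderEmbedding.subtype fun i => i ∈ s) (h x) = g x

/-- **AMO** (amalgamation of linear orders; no hypotheses).  *Proof.*  Give `ι` a linear order.  Let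
`Z = LowerSet J ×ₗ WithTop (Σₗ i, I i)` (lexicographic product; the lower sets of a linear order
are linearly ordered by inclusion; the sigma type is ordered lexicographically).  For `x : I i`
not in the range of `v i` let `c(x) = {a | v i a < x}` and `w i x = (c(x), (i,x))`; for
`a : J` let `w i (v i a) = ({b | b < a}, ⊤)`.  Monotonicity: for `a < b`,
`{c | c < a} ⊂ {c | c < b}` strictly.  For `x < y` both outside of the range `c(x) ⊆ c(y)` and in
case of equality `(i,x) < (i,y)`.  For `x < v i a`, `x` outside: `c(x) ⊆ {b | b < a}`, and in case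
of equality `(i,x) < ⊤`.  For `v i a < x`, `x` outside: `{b | b < a} ⊆ c(x)` and `a` is in `c(x)`
only.  So `w i` is strictly increasing; `w i (v i a)` does not depend on `i`. -/
def AmoStmt : Prop := ∀ (J ι : Type u) [LinearOrder J] (I : ι → Type u)
  [∀ i, LinearOrder (I i)] (v : ∀ i, J ↪o I i),
  ∃ (Z : Type u) (_ : LinearOrder Z) (w : ∀ i, I i ↪o Z), ∀ i j (x : J), w i (v i x) = w j (v j x)

/-! ## Transfinite chains -/

/-- **TRC** (transfinite chains; uses DLM, DLU).  *Proof.*  Let `C` be the category whose objects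
are pairs `(A, e)`, `e : A0 → A` a `𝒦`-embedding, and whose morphisms `(A,e) → (B,e')` are the
`𝒦`-embeddings `f : A → B` with `f ∘ e = e'`.  For every nonempty linear order `J'` in `Type u`
the category `C` has colimits of shape `J'`: the direct limit `G` of DLM with the maps `s i`, with
the base map `s i ∘ e_i` (independent of `i`), and DLU gives the universal property (uniqueness
because the `s i` are jointly surjective).  `J` is a nonempty well-order, so it has `OrderBot` and
`SuccOrder` (`SuccOrder.ofLinearWellFoundedLT`, `WellFoundedLT.toOrderBot`), and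
`HasIterationOfShape J C` holds.  Consider the successor structure
(`CategoryTheory.SmallObject.SuccStruct`) with `X₀ = (A0, id)`, `succ (A,e) = (B, f ∘ e)` and
`toSucc = f` where `B, f` are chosen by the step hypothesis if `Q A`, and `succ X = X`,
`toSucc = id` otherwise.  Let `F = Φ.iterationFunctor J`.  By well-founded induction `Q (F.obj j)`:
for `j = ⊥` by `iterationFunctorObjBotIso` (an `eqToIso`: the objects are equal by
`(Φ.iter ⊥).obj_bot`), for `j = succ i` since `F.obj (succ i) = Φ.succ (F.obj i)`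
(`(Φ.prop_iterationFunctor_map_succ i hi).succ_eq`), and for `j` a limit because `F.obj j` is the
colimit of the `F.obj i`, `i < j` (instance `IsWellOrderContinuous`), hence its cocone is jointly
surjective (compare it with the colimit given by DLM), and `K.ChainClosed Q c` applies to
`Set.Iio j`.  If `a ⋖ b` then `b = succ a`, and by `Φ.prop_iterationFunctor_map_succ` the arrow
`F.map (a ≤ b)` equals (as an arrow) `Φ.toSucc (F.obj a)`, so `R` holds. -/
def TrcStmt : Prop := ∀ (L : FirstOrder.Language.{u, u}) (κ : Cardinal.{u}) (K : AEC L κ)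
  (A0 : K.Mod) (Q : K.Mod → Prop) (R : ∀ A B : K.Mod, K.Hom A0 A → K.Hom A B → Prop)
  (J : Type u) [LinearOrder J] [WellFoundedLT J] [Nonempty J] (c : Cardinal.{u}),
  (∀ j : J, #(Set.Iio j) ≤ c) → K.ChainClosed Q c → Q A0 →
  (∀ (A : K.Mod) (e : K.Hom A0 A), Q A → ∃ (B : K.Mod) (f : K.Hom A B), Q B ∧ R A B e f) →
  ∃ (F : J → K.Mod) (m : ∀ i j : J, i ≤ j → K.Hom (F i) (F j)) (b : ∀ i, K.Hom A0 (F i)),
    (∀ i x, m i i le_rfl x = x) ∧
    (∀ i j k (hij : i ≤ j) (hjk : j ≤ k) x,
      m j k hjk (m i j hij x) = m i k (hij.trans hjk) x) ∧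
    (∀ i j h x, m i j h (b i x) = b j x) ∧ (∀ i, Q (F i)) ∧
    ∀ i j (h : i ⋖ j), R (F i) (F j) (b i) (m i j h.le)

/-- **CCL** (closure of the cardinality classes under unions of chains; no hypotheses).
*Proof.*  The map `(a,x) ↦ s a x` from `Σ a, F a` onto `B` gives `#B ≤ #J * l ≤ l`; and
`l = #(F a) ≤ #B` by injectivity of `s a`. -/
def CclStmt : Prop := ∀ (L : FirstOrder.Language.{u, u}) (κ : Cardinal.{u}) (K : AEC L κ)
  (l : Cardinal.{u}), ℵ₀ ≤ l → K.ChainClosed (fun A => #A.α ≤ l) l ∧
    K.ChainClosed (fun A => #A.α = l) l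

/-- **SIZ** (extensions of prescribed size; uses TRC, DLM, CCL).  *Proof.*  TRC with `A0 = M`,
`Q A = (#A ≤ l)`, `R A B e f = (f is not surjective)`, `J = l.ord.ToType` (`#(Iio j) < l`,
`Cardinal.mk_Iio_ord_toType`), `c = l`.  Step: given `A`, `e` with `#A ≤ l`, there are by
hypothesis `A'` and `f' : A → A'` not surjective; take `x` not in the range and by `K.ls` a strong
`S` with `range f' ∪ {x} ⊆ S`, `#S ≤ #A + 1 + κ ≤ l`; `B = sub A' S`, and `f'` factors through it
(`Hom.exists_factor`).  Let `G`, `s` be the direct limit (DLM) of the chain obtained.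
`#G ≤ #J * l = l`.  For every `i : J` there is `j` with `i ⋖ j` (`J` has no maximum because `l` is
infinite); choose `y_i` in `F j` not in the range of `m i j`; the elements `s j y_i` of `G` are
distinct: if `i < i'`, `i ⋖ j`, `i' ⋖ j'` then `j ≤ i'` and `s j y_i = s i' (m j i' y_i) =
s j' (m i' j' (m j i' y_i))`, which is different from `s j' y_{i'}`.  So `l = #J ≤ #G`. -/
def SizStmt : Prop := ∀ (L : FirstOrder.Language.{u, u}) (κ : Cardinal.{u}) (K : AEC L κ)
  (M : K.Mod), (∀ (N : K.Mod) (_ : K.Hom M N), ¬ AEC.IsMax N) → ∀ l : Cardinal.{u},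
  #M.α + κ ≤ l → ∃ (N : K.Mod) (_ : K.Hom M N), #N.α = l

/-- **STB** (stabilization; uses TRC).  `D B e` is a subset of the type `T` attached to the
extension `e : A → B`, decreasing in the extension; `Q` is a property of members which passes to
unions of chains of length at most `max #T ℵ₀`.  Then there is an extension with property `Q` whose
`D` does not decrease any more in extensions with property `Q`.
*Proof.*  Otherwise for all `(B,e)` with `Q B` there are `C`, `f : B → C` with `Q C` and
`D C (f.comp e) ≠ D B e`, hence `D C (f.comp e) ⊂ D B e`.  Apply TRC with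
`J = (Order.succ (max #T ℵ₀)).ord.ToType`, `c = max #T ℵ₀` (`#(Iio j) < succ c`) and
`R A B e f = (D B (f.comp e) ≠ D A e)`.  In the chain obtained let `D_i = D (F i) (b i)`;
`m i j` composed with `b i` is `b j` (`Hom.ext`), so `D_j ⊆ D_i` for `i ≤ j` and
`D_j ≠ D_i` for `i ⋖ j`.  `J` has no maximum, so for every `i` choose `j` with `i ⋖ j` and
`t_i ∈ D_i \ D_j`.  The map `i ↦ t_i` is injective: for `i < i'`, `j ≤ i'` so
`t_{i'} ∈ D_{i'} ⊆ D_j`, `t_i ∉ D_j`.  But `#J = succ (max #T ℵ₀) > #T`, a contradiction. -/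
def StbStmt : Prop := ∀ (L : FirstOrder.Language.{u, u}) (κ : Cardinal.{u}) (K : AEC L κ)
  (A : K.Mod) (T : Type u) (D : ∀ B : K.Mod, K.Hom A B → Set T) (Q : K.Mod → Prop),
  (∀ (B C : K.Mod) (e : K.Hom A B) (f : K.Hom B C), D C (f.comp e) ⊆ D B e) →
  K.ChainClosed Q (max #T ℵ₀) → Q A →
  ∃ (B : K.Mod) (e : K.Hom A B), Q B ∧
    ∀ (C : K.Mod) (f : K.Hom B C), Q C → D C (f.comp e) = D B e

/-! ## The Hanf argument -/

/-- **SMC** (strong embeddings are determined by small models; uses FIN).  *Proof.*  (Only if.)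
Let `K.emb f`.  By strong recursion on the finite set `s ⊆ B` choose a strong substructure `S s` of
`B` with `#(S s) ≤ κ` containing `s` and all `S t`, `t ⊂ s`, and such that `S s ⊆ range f` if
`s ⊆ range f`: in the second case apply `K.ls` inside of `range f` (strong in `B`): a subset of
`range f` of size `≤ κ` is contained in `f(S')`, `S'` strong in `A`, `#S' ≤ κ`, and `f(S')` is
strong in `B`.  For `s ⊆ t` we have `S s ≤ S t`, both strong in `B`, so by coherence
`K.emb (inclusion _)`.  (If.)  Apply FIN to `M = S`, `U = B`, the subset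
`range f` of `I = B` and `univ`: `unionOver S univ = ⊤` and `unionOver S (range f) = range f`
because `s ⊆ S s` and `S s ⊆ range f` for `s ⊆ range f`.  So the inclusion of `range f` in
`⊤ ≃ B` is a `𝒦`-embedding; compose with `A ≃ range f`. -/
def SmcStmt : Prop := ∀ (L : FirstOrder.Language.{u, u}) (κ : Cardinal.{u}) (K : AEC L κ)
  (A B : Type u) [L.Structure A] [L.Structure B] (f : A ↪[L] B),
  K.emb f ↔ ∃ (S : Finset B → L.Substructure B) (mono : Monotone S),
    (∀ s : Finset B, (s : Set B) ⊆ (S s : Set B)) ∧ (∀ s, #(S s) ≤ κ) ∧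
    (∀ s t (h : s ≤ t), K.emb (Substructure.inclusion (mono h))) ∧
    ∀ s : Finset B, (s : Set B) ⊆ Set.range f → (S s : Set B) ⊆ Set.range f

/-- **SML** (there are only few classes; uses SMC).  *Proof.*  Attach to `K` the set `code K` of all
`(X, st, Y, st', f)`, where `X, Y` are subsets of `κ.out`, `st, st'` are `L`-structures on them and
`f` is an embedding with `K.emb f`: an element of a type in `Type u` (the powerset of
`Σ (X : Σ X : Set κ.out, L.Structure X) (Y : …), X ↪[L] Y`).  It suffices that `code` is injective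
(`small_of_injective`).  Let `code K = code K'`.  If `f : A ↪[L] B` with `#A, #B ≤ κ`, choose
bijections of `A`, `B` with subsets of `κ.out` and transport the structures
(`Equiv.inducedStructure`); by invariance under isomorphism `K.emb f ↔ K'.emb f`.  By SMC (whose
right-hand side only involves `K.emb` for the inclusions of structures of size `≤ κ`)
`K.emb f ↔ K'.emb f` for all `f`.  Finally `K.mem M ↔ K.emb (Embedding.refl L M)` (`K.iso`,
`K.dom`), so `K.mem = K'.mem`, and `K = K'` since the other fields are proofs. -/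
def SmlStmt : Prop := ∀ (L : FirstOrder.Language.{u, u}) (κ : Cardinal.{u}),
  Small.{u} (AEC L κ)

/-- The vocabulary with symbols in given subsets of `X`. -/
def codeLang {X : Type u} (F R : ℕ → Set X) : FirstOrder.Language.{u, u} :=
  ⟨fun n => F n, fun n => R n⟩

/-- **LNG** (change of vocabulary; no hypotheses).  *Proof.*  Since `L.card ≤ κ`, for every `n`
there are subsets `F n`, `R n` of `κ.out` and bijections `φ_n : F n ≃ L.Functions n`,
`ρ_n : R n ≃ L.Relations n`.  Let `L0 = codeLang F R`.  An `L0`-structure on `M` is the same as an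
`L`-structure on `M` (rename the symbols along `φ`, `ρ` resp. their inverses; the two operations
are inverse to each other), with the same embeddings, isomorphisms and substructures.  Define `K0`
by `K0.mem M = K.mem M'` and `K0.emb f = K.emb f'`, where `'` is the renaming from `L0` to `L`
(for `FirstOrder.Language.LHom.reduct` the induced structure on a substructure is renamed to the
induced structure, by `rfl`).  All axioms are immediate; `L0.card = L.card`.  A member `M` of `K`
of cardinality `l` gives a member of `K0` on the same set and conversely, with the same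
isomorphisms. -/
def LngStmt : Prop := ∀ (L : FirstOrder.Language.{u, u}) (κ : Cardinal.{u}) (K : AEC L κ),
  ∃ (F R : ℕ → Set κ.out) (K0 : AEC (codeLang F R) κ), ∀ l : Cardinal.{u},
    (K.Cat l ↔ K0.Cat l) ∧ ((∃ M : K.Mod, #M.α = l) ↔ ∃ M : K0.Mod, #M.α = l)

/-- **HNF** (Hanf numbers; uses SML, LNG).  *Proof.*  Let `T = Σ F R : ℕ → Set κ.out,
AEC (codeLang F R) κ`, a small type by SML.  For `K0` in `T` let `b(K0)` be a bound of
`{l | K0.Cat l}` if there is one and `0` otherwise, `b'(K0)` a bound of the set of cardinalities of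
members of `K0` if there is one and `0` otherwise.  Let `μ` be larger than all `b(K0)`, `b'(K0)`
(`Cardinal.bddAbove_of_small` / `Cardinal.bddAbove_range` after `equivShrink`).  Let `K` be
categorical in some `l ≥ μ`; take `K0` by LNG; it is categorical in `l ≥ μ > b(K0)`, so
`{l | K0.Cat l}` is not bounded, that is, `K0` and hence `K` is categorical in unboundedly many
cardinals.  Same for the cardinalities of members (if there are members of cardinality `≥ m` for
all `m`, then `K.ArbLarge`). -/
def HnfStmt : Prop := ∀ κ : Cardinal.{u}, ∃ μ : Cardinal.{u},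
  ∀ (L : FirstOrder.Language.{u, u}) (K : AEC L κ),
    ((∃ l, μ ≤ l ∧ K.Cat l) → K.UbCat) ∧ ((∃ M : K.Mod, μ ≤ #M.α) → K.ArbLarge)

/-! ## Counting -/

/-- **CN1** (counting; no hypotheses).  *Proof.*  A linear order on a subset `s` of `X` is
determined by `s` and the set of pairs `(x,y) ∈ X × X` with `x, y ∈ s`, `x ≤ y`, and
`2 ^ #X * 2 ^ (#X * #X) = 2 ^ #X`.  (`LinearOrder` contains data which are determined by `≤`:
`LinearOrder.ext`.) -/
def Cn1Stmt : Prop := ∀ X : Type u, ℵ₀ ≤ #X → #(LO X) ≤ 2 ^ #X

/-- **CN2** (counting; uses CN1).  *Proof.*  For `j : LO X`, `#(E.obj j.s) ≤ #X + κ = #X`, and a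
`𝒦`-embedding `A → E.obj j.s` is determined by its underlying function, so there are at most
`#X ^ #X = 2 ^ #X` of them; `Sg` is the sum over the `j : LO X`. -/
def Cn2Stmt : Prop := ∀ (L : FirstOrder.Language.{u, u}) (κ : Cardinal.{u}) (K : AEC L κ)
  (E : K.EM) (A : K.Mod) (X : Type u), κ ≤ #X → #A.α ≤ #X → #(E.Sg A X) ≤ 2 ^ #X

/-- **CN3** (counting; no hypotheses).  *Proof.*  A nonempty subset with at most `χ` elements is the
range of a function `χ.out → M`, there are `l ^ χ = l` functions, and the empty substructure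
accounts for one more; a substructure is determined by its set of elements
(`Cardinal.mk_bounded_subset_le` or directly). -/
def Cn3Stmt : Prop := ∀ (L : FirstOrder.Language.{u, u}) (M : Type u) [L.Structure M]
  (χ : Cardinal.{u}), ℵ₀ ≤ χ → ℵ₀ ≤ #M → (#M) ^ χ = #M →
  #{S : L.Substructure M // #S ≤ χ} ≤ #M

/-! ## Directions -/

/-- **DNE** (existence of directions; uses SPT).  *Proof.*  Let `g : B → E.obj I`.  By SPT applied
to `g.comp e : A → E.obj I` there are `s ⊆ I` with `#s ≤ #A + ℵ₀ ≤ #X` and `h : A → E.obj s` with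
`E.map (incl) (h x) = g (e x)`.  As `#s ≤ #X` there is a subset `t` of `X` and a bijection
`t ≃ s`; carry the order of `s` over to `t`: `j : LO X` with `j.s = t` and an order isomorphism
`θ : j.s ≃o s`.  Then `(j, E.map θ.symm ∘ h)` is in `E.D X e`, with `v = θ` followed by the
inclusion. -/
def DneStmt : Prop := ∀ (L : FirstOrder.Language.{u, u}) (κ : Cardinal.{u}) (K : AEC L κ)
  (E : K.EM) (X : Type u) (A B : K.Mod) (e : K.Hom A B), #A.α + ℵ₀ ≤ #X →
  ∀ (I : Type u) [LinearOrder I] (_ : K.Hom B (E.obj I)), (E.D X e).Nonempty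

/-- **DAM** (a common direction gives an amalgam; uses AMO).  *Proof.*  Let `σ = (j,h)`.  For every
`i` choose a linear order `I i`, `v i : j.s ↪o I i`, `g i : C i → E.obj (I i)` with
`g i (f i (e x)) = E.map (v i) (h x)`.  Amalgamate the `v i` by AMO: `w i : I i ↪o Z`.  The maps
`E.map (w i) ∘ g i : C i → E.obj Z` satisfy
`E.map (w i) (g i (f i (e x))) = E.map (w i) (E.map (v i) (h x)) = E.map (w i ∘ v i) (h x)`, which
does not depend on `i`. -/
def DamStmt : Prop := ∀ (L : FirstOrder.Language.{u, u}) (κ : Cardinal.{u}) (K : AEC L κ)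
  (E : K.EM) (X : Type u) (A B : K.Mod) (e : K.Hom A B) (ι : Type u) (C : ι → K.Mod)
  (f : ∀ i, K.Hom B (C i)) (σ : E.Sg A X), (∀ i, σ ∈ E.D X ((f i).comp e)) → AEC.Amalg e C f

/-- **EMB** (embeddings in the categoricity cardinal; uses SIZ).  *Proof.*  By SIZ there is an
extension `N` of `B` of cardinality `l`.  `E.obj l.ord.ToType` has cardinality `l`, because
`l = #l.ord.ToType ≤ #(E.obj _) ≤ l + κ = l`.  By categoricity they are isomorphic. -/
def EmbStmt : Prop := ∀ (L : FirstOrder.Language.{u, u}) (κ : Cardinal.{u}) (K : AEC L κ)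
  (E : K.EM) (B : K.Mod), (∀ (N : K.Mod) (_ : K.Hom B N), ¬ AEC.IsMax N) →
  ∀ l : Cardinal.{u}, #B.α + κ ≤ l → K.Cat l → Nonempty (K.Hom B (E.obj l.ord.ToType))

/-! ## Theorem W1 -/

/-- **W1A** (unbounded categoricity implies weak amalgamation; uses STB, DNE, DAM, EMB).
*Proof.*  Let `M` be a member.  Case 1: there are a maximal `N` and `e : M → N`.  If
`f i : N → B i` are extensions, each `f i` is bijective, hence an isomorphism, and
`w i = (f i)⁻¹ : B i → N` (`Hom.exists_factor` applied to `Hom.id (B i)` and `f i`) amalgamates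
them.  Case 2: no extension of `M` is maximal; the same holds for the extensions of extensions of
`M`.  Let `X = (#M + κ).out` and apply STB with `A = M`, `T = E.Sg M X`,
`D B e = E.D X e` (decreasing: replace `g` by `g.comp f`), `Q = True`: there are `N`, `e : M → N`
with `E.D X (f.comp e) = E.D X e` for all extensions `f` of `N`.  Take `l ≥ #N + κ` with
`K.Cat l`; by EMB there is a `𝒦`-embedding `N → E.obj l.ord.ToType`, so by DNE there is
`σ ∈ E.D X e`.  If `f i : N → B i` are extensions then `σ ∈ E.D X ((f i).comp e)` for all `i`, and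
DAM gives `Amalg e B f`. -/
def W1aStmt : Prop := ∀ (L : FirstOrder.Language.{u, u}) (κ : Cardinal.{u}) (K : AEC L κ),
  Nonempty K.EM → K.UbCat → K.WAP

/-- **W1F** (Theorem W1; uses HNF, TPA, TPB, EMX, W1A).  *Proof.*  Take `μ` from HNF.  If `K` is
categorical in some `l ≥ μ` then `K.UbCat`, hence `K.ArbLarge`, hence `Nonempty K.EM` by TPA, TPB,
EMX; apply W1A. -/
def W1fStmt : Prop := ∀ κ : Cardinal.{u}, ∃ μ : Cardinal.{u},
  ∀ (L : FirstOrder.Language.{u, u}) (K : AEC L κ), (∃ l, μ ≤ l ∧ K.Cat l) → K.WAP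

/-! ## Theorem W2 -/

namespace AEC

/-- The extension `e : A → B` is stable in the cardinal `l`. -/
def EM.LStable {L : FirstOrder.Language.{u, u}} {κ : Cardinal.{u}} {K : AEC L κ} (E : K.EM)
    (X : Type u) (l : Cardinal.{u}) {A B : K.Mod} (e : K.Hom A B) : Prop :=
  ∀ (C : K.Mod) (f : K.Hom B C), #C.α = l → E.D X (f.comp e) = E.D X e

end AEC

/-- **S1F** (one extension which is stable for all small submodels; uses STB, CCL, CN2, CN3).
*Proof.*  Note `χ < 2 ^ χ ≤ l ^ χ = l`.  Let `T` be the type of pairs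
`(S, σ)`, `S` a strong substructure of `Q0` with `#S ≤ χ` and `σ ∈ E.Sg (sub Q0 S) X`, where
`X = χ.out`; by CN3 and CN2 `#T ≤ l * 2 ^ χ = l`.  For `f : Q0 → B` let `D B f` be the set of the
pairs `(S, σ)` with `σ ∈ E.D X (f.comp (subHom Q0 S))`; it is decreasing.  Apply STB with
`A = Q0` and `Q B = (#B = l)`, which passes to unions of chains of length `≤ l` by CCL (and
`max #T ℵ₀ ≤ l`; `ChainClosed` is monotone in the bound).  If `D C (g.comp f) = D B f` then for
every `S`, `E.D X ((g.comp f).comp (subHom Q0 S)) = E.D X (f.comp (subHom Q0 S))`. -/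
def S1fStmt : Prop := ∀ (L : FirstOrder.Language.{u, u}) (κ : Cardinal.{u}) (K : AEC L κ)
  (E : K.EM) (l χ : Cardinal.{u}), κ ≤ χ → ℵ₀ ≤ l → l ^ χ = l → ∀ Q0 : K.Mod, #Q0.α = l →
  ∃ (B : K.Mod) (f : K.Hom Q0 B), #B.α = l ∧
    ∀ (S : L.Substructure Q0.α) (h : K.emb S.subtype), #S ≤ χ →
      E.LStable χ.out l (f.comp (AEC.subHom Q0 S h))

/-- **S2F** (`χ⁺` rounds; uses S1F, TRC, CCL, DLM, DNE, DAM).  *Proof.*  Apply TRC with
`A0 = Q0`, `Q A = (#A = l)`, `J = (Order.succ χ).ord.ToType`, `c = χ ≤ l` (CCL),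
`R A B e f =` (for all strong `S` in `A` with `#S ≤ χ`, `f.comp (subHom A S)` is `LStable`), the
step being S1F.  Let `G`, `s` be the direct limit (DLM) of the chain `F`; `#G = l` because
`#J = χ⁺ ≤ l` (`χ < 2 ^ χ ≤ l`).  Let `A ⊆ G` with `#A ≤ χ`.  By `K.ls` there is a strong `S ⊆ G`
with `A ⊆ S`, `#S ≤ χ + κ = χ`.  Since `χ⁺` is regular there is `i : J` with
`S ⊆ range (s i)`.  So `subHom G S` factors: `e' : sub G S → F i` with `s i (e' x) = x`
(`Hom.exists_factor`).  Let `S' = range e'`, strong in `F i`, and `i ⋖ j`; `(m i j).comp e'` is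
stable in `l` because `(m i j).comp (subHom (F i) S')` is, that is: if `f k : G → C k` are
extensions with `#(C k) = l` then all `E.D X ((f k).comp (s j) .comp (m i j) .comp (subHom S'))`
are equal to `E.D X ((m i j).comp (subHom S'))`, which is nonempty by DNE (the model `F j` has
cardinality `l`, so it is isomorphic to `E.obj l.ord.ToType` by categoricity).  By DAM (with
`A = sub (F i) S'`, `B = G`, `e = (s i).comp (subHom S')`) the `f k` can be amalgamated over
`S'`, whose image in `G` is `S ⊇ A`. -/
def S2fStmt : Prop := ∀ (L : FirstOrder.Language.{u, u}) (κ : Cardinal.{u}) (K : AEC L κ)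
  (_ : K.EM) (l χ : Cardinal.{u}), κ ≤ χ → ℵ₀ ≤ l → l ^ χ = l → K.Cat l →
  ∃ G : K.Mod, #G.α = l ∧ ∀ A : Set G.α, #A ≤ χ →
    ∀ (ι : Type u) (C : ι → K.Mod) (f : ∀ i, K.Hom G (C i)), (∀ i, #(C i).α = l) →
    ∃ (Z : K.Mod) (w : ∀ i, K.Hom (C i) Z), ∀ i j, ∀ x ∈ A, w i (f i x) = w j (f j x)

/-- **W2F** (Theorem W2; uses HNF, TPA, TPB, EMX, S2F).  *Proof.*  Let `μ` be the maximum of the
cardinal from HNF and `ℵ₀`.  If `K.Cat l`, `μ ≤ l`, then `K.ArbLarge` by HNF and `K` has an
Ehrenfeucht-Mostowski functor by TPA, TPB, EMX.  Take `G` from S2F.  Let `M` be a member with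
`#M = l`; there is an isomorphism `θ : G ≃ M`.  The property of `G` carries over to `M`: for
`A ⊆ M`, `f i : M → B i` apply it to `θ⁻¹(A)` and `(f i).comp θ`. -/
def W2fStmt : Prop := ∀ κ : Cardinal.{u}, ∃ μ : Cardinal.{u},
  ∀ (L : FirstOrder.Language.{u, u}) (K : AEC L κ) (l χ : Cardinal.{u}), μ ≤ l → κ ≤ χ →
    l ^ χ = l → K.Cat l → K.APsmall l χ

end Pool.Agent.AEC
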