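import Pool.Agent.AEC.StmtsB

/-!
# Squad AEC (problem MP_23d7af_lc): statements, part C (theorem W2 without Hanf number)

Theorem W2 in the stronger form found by helper64: no Ehrenfeucht-Mostowski functor and no Hanf
number.  The directions are the maps into the model of cardinality `l` itself.  Rows S1G, S2G, W2G
replace S1F, S2F, W2F.
-/

open FirstOrder FirstOrder.Language Cardinal Set

universe u

namespace Pool.Agent.AEC

namespace AEC

variable {L : FirstOrder.Language.{u, u}} {κ : Cardinal.{u}} {K : AEC L κ}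

/-- The traces on `A` of the maps `B → P`, for `e : A → B`. -/
def Tr (P : K.Mod) {A B : K.Mod} (e : K.Hom A B) : Set (K.Hom A P) :=
  {h | ∃ g : K.Hom B P, ∀ x, g (e x) = h x}

/-- The traces on `A` of the maps into `P` do not decrease when `B` is replaced by an extension of
cardinality `l`. -/
def TStable (P : K.Mod) (l : Cardinal.{u}) {A B : K.Mod} (e : K.Hom A B) : Prop :=
  ∀ (C : K.Mod) (f : K.Hom B C), #C.α = l → Tr P (f.comp e) = Tr P e

end AEC

/-- **CN4** (counting; no hypotheses).  *Proof.*  A `𝒦`-embedding is determined by its underlying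
function. -/
def Cn4Stmt : Prop := ∀ (L : FirstOrder.Language.{u, u}) (κ : Cardinal.{u}) (K : AEC L κ)
  (A P : K.Mod), #(K.Hom A P) ≤ #P.α ^ #A.α

/-- **S1G** (one extension which is stable for all small submodels; uses STB, CCL, CN3, CN4).
*Proof.*  Let `T` be the type of triples `(S, h, σ)`, `S` a substructure of `Q0` with `#S ≤ χ`,
`h : K.emb S.subtype`, `σ : K.Hom (sub Q0 S h) P`; by CN3 and CN4
`#T ≤ l * l ^ χ = l` (`l ^ #S ≤ l ^ χ` since `l` is not `0`).  For `f : Q0 → B` let `D B f` be the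
set of the triples with `σ ∈ Tr P (f.comp (subHom Q0 S h))`; it is decreasing (compose `g` with the
map of the extension).  Apply STB with `A = Q0` and `Q B = (#B = l)`, which passes to unions of
chains of length `≤ l` by CCL (and `max #T ℵ₀ ≤ l`; `ChainClosed` is monotone in the bound).  If
`D C (g.comp f) = D B f` then `Tr P ((g.comp f).comp (subHom Q0 S h)) = Tr P (f.comp (subHom Q0 S
h))` for all `S`, `h`. -/
def S1gStmt : Prop := ∀ (L : FirstOrder.Language.{u, u}) (κ : Cardinal.{u}) (K : AEC L κ)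
  (P : K.Mod) (l χ : Cardinal.{u}), κ ≤ χ → ℵ₀ ≤ l → l ^ χ = l → #P.α = l →
  ∀ Q0 : K.Mod, #Q0.α = l → ∃ (B : K.Mod) (f : K.Hom Q0 B), #B.α = l ∧
    ∀ (S : L.Substructure Q0.α) (h : K.emb S.subtype), #S ≤ χ →
      AEC.TStable P l (f.comp (AEC.subHom Q0 S h))

/-- **S2G** (`χ⁺` rounds; uses S1G, TRC, CCL, DLM).  *Proof.*  By `K.Cat l` there is a member `P`
with `#P = l`.  Apply TRC with `A0 = P`, `Q A = (#A = l)`, `J = (Order.succ χ).ord.ToType`,
`c = χ ≤ l` (`χ < 2 ^ χ ≤ l ^ χ = l`; CCL), `R A B e f =` (for all strong `S` in `A` with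
`#S ≤ χ`, `f.comp (subHom A S)` is `TStable P l`), the step being S1G.  Let `G`, `s` be the direct
limit (DLM) of the chain `F`; `#G = l` because `#J = χ⁺ ≤ l`.  Let `A ⊆ G` with `#A ≤ χ`.  By
`K.ls` there is a strong `S ⊆ G` with `A ⊆ S`, `#S ≤ χ + κ = χ`.  Since `χ⁺` is regular there is
`i : J` with `S ⊆ range (s i)`.  So `subHom G S` factors: `e' : sub G S → F i` with
`s i (e' x) = x` (`Hom.exists_factor`).  Let `S' = range e'`, strong in `F i` (`Hom.emb_range`),
`#S' ≤ χ`, let `i ⋖ j` and `e'' = (m i j).comp (subHom (F i) S')`, which is `TStable P l`.  Let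
`f k : G → C k` be extensions with `#(C k) = l`.  Then all
`Tr P (((f k).comp (s j)).comp e'')` are equal to `Tr P e''`, which is nonempty because `F j` has
cardinality `l` and so is isomorphic to `P` by categoricity.  Hence there are `h` and
`w k : C k → P` with `w k (f k (s j (e'' x))) = h x` for all `x ∈ S'` and all `k`.  Since
`s j (e'' x) = s i x` and `s i (S') = S ⊇ A`, the maps `w k ∘ f k` agree on `A`. -/
def S2gStmt : Prop := ∀ (L : FirstOrder.Language.{u, u}) (κ : Cardinal.{u}) (K : AEC L κ)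
  (l χ : Cardinal.{u}), κ ≤ χ → ℵ₀ ≤ l → l ^ χ = l → K.Cat l →
  ∃ G : K.Mod, #G.α = l ∧ ∀ A : Set G.α, #A ≤ χ →
    ∀ (ι : Type u) (C : ι → K.Mod) (f : ∀ i, K.Hom G (C i)), (∀ i, #(C i).α = l) →
    ∃ (Z : K.Mod) (w : ∀ i, K.Hom (C i) Z), ∀ i j, ∀ x ∈ A, w i (f i x) = w j (f j x)

/-- **W2G** (Theorem W2; uses S2G).  *Proof.*  Take `G` from S2G.  Let `M` be a member with
`#M = l`; there is an isomorphism `θ : G ≃ M`.  The property of `G` carries over to `M`: for
`A ⊆ M`, `f i : M → B i` apply it to `θ⁻¹(A)` and `(f i).comp θ`. -/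
def W2gStmt : Prop := ∀ (L : FirstOrder.Language.{u, u}) (κ : Cardinal.{u}) (K : AEC L κ)
  (l χ : Cardinal.{u}), κ ≤ χ → ℵ₀ ≤ l → l ^ χ = l → K.Cat l → K.APsmall l χ

end Pool.Agent.AEC
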