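import Pool.Agent.AEC.StmtsB

/-!
# Squad AEC (problem MP_23d7af_lc): statements, part D (local amalgamation bases)
-/

open FirstOrder FirstOrder.Language Cardinal Set

universe u

namespace Pool.Agent.AEC

/-- Local amalgamation bases are dense: for every cardinal `χ` every member `M` has an extension
`N` such that every family (indexed by a set) of extensions of `N`, of any cardinalities, can be
amalgamated over every subset `A` of `N` with at most `χ` elements. -/
def AEC.LAP {L : FirstOrder.Language.{u, u}} {κ : Cardinal.{u}} (K : AEC L κ) : Prop :=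
  ∀ (χ : Cardinal.{u}) (M : K.Mod), ∃ (N : K.Mod) (_ : K.Hom M N), ∀ A : Set N.α, #A ≤ χ →
    ∀ (ι : Type u) (B : ι → K.Mod) (f : ∀ i, K.Hom N (B i)),
    ∃ (Z : K.Mod) (w : ∀ i, K.Hom (B i) Z), ∀ i j, ∀ x ∈ A, w i (f i x) = w j (f j x)

/-- **LAP** (weak amalgamation gives local amalgamation bases; uses TRC, DLM). -/
def LapStmt : Prop := ∀ (L : FirstOrder.Language.{u, u}) (κ : Cardinal.{u}) (K : AEC L κ),
  K.WAP → K.LAP

end Pool.Agent.AEC
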