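import Pool.Agent.AEC.StmtsB
import Pool.Agent.AEC.DefsS

/-!
# Squad AEC (problem MP_23d7af_lc): statements, part S (Theorem S: sparse classes)

THEOREM S.  For every `κ` there is `μ` such that every AEC `K` with `LS(K) ≤ κ` in a relational
vocabulary all of whose members are sparse (among more than `κ` elements two can be separated in the
Gaifman graph by `≤ κ` other elements; e.g. forests) and which is categorical in some `l ≥ μ` is
categorical in every `χ ≥ μ` and has amalgamation in every `χ ≥ μ`.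

MAIN IDEA.  `E` an Ehrenfeucht-Mostowski functor, `J` a linear order with a point `o` which can be
moved by an automorphism fixing any given small set of other points (`OrdStmt`), `N = E(J)`,
`M = E(J \ {o})`, `c` in `N \ M` (`NcpStmt`).  The component `C` of `c` in `N \ M` has at most `κ`
neighbours in `M`, the set `B` (`SepStmt`), and `C` has more than `κ` disjoint images under
automorphisms of `N` fixing `B` (`OrbStmt`).  A closure argument gives a small `A ≤_K N` which
meets `κ` of these copies of `C` in the same small set (`CloStmt`); permuting the copies one gets a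
template `τ`: `W τ T` is in `K` for all `T` with `κ ≤ #T` (`TplStmt`).  So the model in a
categoricity cardinal `l > κ` is `W τ l`.  Then (`StabStmt`, `BgStmt`: a small isomorphism invariant
set which can only grow in extensions does not grow) all components are preserved in extensions in
`K_l`, no new components except new copies of `A` (`SvcStmt` ... `GodStmt`), and the same holds for
all larger cardinals (`ParStmt`), so `K_χ = {W τ χ}` and amalgamation is trivial (`CatStmt`).

CONVENTION: in the docstrings SMALL means: of cardinality `≤ κ`; `κ` is infinite (`K.aleph0_le`).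
-/

set_option autoImplicit false

open FirstOrder FirstOrder.Language Cardinal Set

universe u

namespace Pool.Agent.AEC

namespace S

/-! ### The model with many conjugate components -/

/-- **S_ORD** (no hypotheses).  *Proof.*  `ι = (succ κ).ord.ToType`, `J = Lex (ι → ℤ)`, `o = 0`.
For `a : ι` the map `σ_a` which adds `1` in the coordinate `a` to all `f` vanishing below `a` and
fixes all others is an automorphism of `J`.  If `A` is small, choose for `f ∈ A`, `f ≠ 0` a
coordinate where it is not zero; these coordinates are not cofinal in `ι` (regularity of `succ κ`),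
so `σ_a` for a large `a` fixes `A \ {0}`, and `σ_a 0 ≠ 0`. -/
def OrdStmt : Prop := ∀ κ : Cardinal.{u}, ℵ₀ ≤ κ → ∃ (J : Type u) (_ : LinearOrder J)
  (_ : NoMinOrder J) (_ : NoMaxOrder J) (o : J), ∀ A : Set J, #A ≤ κ →
    ∃ σ : J ≃o J, (∀ a ∈ A, a ≠ o → σ a = a) ∧ σ o ≠ o

/-- **S_NCP** (no hypotheses).  *Proof.*  Let `F n = ULift (Fin n)` (or any type in `Type u` with a
linear order isomorphic to `Fin n`).  (A) There are `n`, `y` in `E(F n)`, a linear order `J'` and
order embeddings `a, b : F n → J'` with `E.map a y ≠ E.map b y`.  Suppose not, and let `J'` be a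
linear order with `κ < #J'`.  By `E.supp` every element of `E(J')` is in the range of `E.map` of an
embedding `F n → J'` (the finite set of `E.supp` is isomorphic to some `F n`), and this value does
not depend on the embedding `F n → J'`, so `E(J')` has at most `Σ n, #(E(F n)) ≤ ℵ₀ * κ = κ` elements
(`E.card_le`); but `κ < #J' ≤ #E(J')` (`E.le_card`).  (B) We may assume that `a` and `b` differ in
exactly one coordinate.  Let `J'' = J' ⊕ₗ F n` and `c k = inr k`.  One of `a`, `b`, say `a`,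
satisfies `E.map (inl ∘ a) y ≠ E.map c y` (`E.map` of the embedding `inl` is injective).  Let
`e_k : F n → J''` for `k = 0, ..., n` be the embedding with `e_k j = inl (a j)` for `j < k` and
`e_k j = inr j` for `j ≥ k`; `e_0 = c`, `e_n = inl ∘ a`.  So for some `i < n` the values
`E.map e_i y` and `E.map e_{i+1} y` are different, and `e_i`, `e_{i+1}` differ exactly in the
coordinate `i`.  (C) Let `F' = F (n+1)` and `α, β : F n → F'` the two embeddings which omit `i + 1`,
resp. `i` (`Fin.succAboveOrderEmb`); if `a', b' : F n → J'` are two embeddings which differ exactly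
in the coordinate `i`, `a' i < b' i`, then `a' = g ∘ α`, `b' = g ∘ β` for one embedding `g : F' → J'`.
So `E.map α y ≠ E.map β y` by (B), and hence `E.map a' y ≠ E.map b' y` for ALL such pairs (`E.map g`
is injective), also if `b' i < a' i` (by symmetry).  (D) Choose `a : F n → J` with `a i = o` (`J` has
no minimum and no maximum) and `c = E.map a y`.  If `c` was in the range of
`E.map (incl : {o}ᶜ → J)` then by `E.supp` there would be a finite `s ⊆ J`, `o ∉ s`, with `c` in the
range of `E.map (incl : s → J)`.  Let `σ` be an automorphism of `J` which fixes `s` and the `a j`,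
`j ≠ i`, with `σ o ≠ o`.  Then `E.map σ c = c` (it fixes `s`), but
`E.map σ c = E.map (σ ∘ a) y ≠ E.map a y` because `σ ∘ a` and `a` differ exactly in the coordinate
`i`.  Contradiction. -/
def NcpStmt : Prop := ∀ (L : FirstOrder.Language.{u, u}) (κ : Cardinal.{u}) (K : AEC L κ)
  (E : K.EM) (J : Type u) [LinearOrder J] [NoMinOrder J] [NoMaxOrder J] (o : J),
  (∀ A : Set J, #A ≤ κ → ∃ σ : J ≃o J, (∀ a ∈ A, a ≠ o → σ a = a) ∧ σ o ≠ o) →
  ∃ c : (E.obj J).α, c ∉ Set.range (E.map (OrderEmbedding.subtype fun i : J => i ∈ ({o}ᶜ : Set J)))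

/-- **S_SEP** (no hypotheses).  Write `M` for the range, `C` for the component of `c` in the
complement of `M`.  *Proof.*  Suppose that the set `B` of the neighbours of `C` in `M` has more than
`κ` elements.  By sparseness of `E(J)` there are `x, y ∈ B` and a small `T` with `x, y ∉ T` and no
path from `x` to `y` avoiding `T`.  By `E.supp` (in `{o}ᶜ` and in `J`) there are finite `s ⊆ {o}ᶜ`
with `x, y` in the range of `E.map (incl : s → J)` and for every `t ∈ T` a finite `s_t ⊆ J` with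
`t` in the range of `E.map (incl : s_t → J)`.  Let `σ` be the automorphism for the small set
`s ∪ ⋃ s_t`, `g = E.map σ`, an automorphism of `E(J)` (inverse `E.map σ.symm`).  `g x = x`,
`g y = y`; `g t ∈ M` for `t ∈ T` because `σ` maps `s_t` into `{o}ᶜ`.  There is a path
`x, z, ..., z', y` with `z, ..., z' ∈ C` (`con` between points outside of `M` is symmetric), and
`C` is disjoint from `M ⊇ g(T)`, `y = g y ∉ g(T)`; so `con L (g(T)) x y`, and applying `g⁻¹`,
`con L T x y`.  Contradiction. -/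
def SepStmt : Prop := ∀ (L : FirstOrder.Language.{u, u}) (κ : Cardinal.{u}) (K : AEC L κ)
  (E : K.EM) (J : Type u) [LinearOrder J] (o : J),
  (∀ A : Set J, #A ≤ κ → ∃ σ : J ≃o J, (∀ a ∈ A, a ≠ o → σ a = a) ∧ σ o ≠ o) →
  Sparse L κ (E.obj J).α → ∀ c : (E.obj J).α,
  c ∉ Set.range (E.map (OrderEmbedding.subtype fun i : J => i ∈ ({o}ᶜ : Set J))) →
  #{s : (E.obj J).α | s ∈ Set.range
      (E.map (OrderEmbedding.subtype fun i : J => i ∈ ({o}ᶜ : Set J))) ∧
    ∃ y ∈ cmp L (Set.range
      (E.map (OrderEmbedding.subtype fun i : J => i ∈ ({o}ᶜ : Set J)))) c, adj L s y} ≤ κ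

/-- **S_ORB** (uses OrdStmt, NcpStmt, SepStmt).  *Proof.*  `N = E(J)`, `M`, `c`, `C`, `B` as in
`SepStmt`.  By `E.supp` choose for `s ∈ B` a finite set `⊆ {o}ᶜ` and for `c` a finite set `⊆ J`
which support it; let `I₀ ⊆ {o}ᶜ` be the union of these sets without `o`; it is small.  Let `G` be
the set of the automorphisms `g` of `J` which fix `I₀`; `ĝ = E.map g` is an automorphism of `N`
which fixes `B`.  `C` is closed: if `x ∈ C`, `adj x y` then `y ∈ C` (if `y ∉ M`) or `y ∈ B`; so all
`ĝ(C)` are connected and closed outside of `B`, and two of them which meet are equal (each of them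
is the component of any of its points in the complement of `B`).  Let `ι` be the set
`{ĝ(C) | g ∈ G}` (as a type in `Type u`) and choose for `k : ι` a `g_k` with `ĝ_k(C) = k`,
`e k = ĝ_k`, and `g_{k₀} = 1` for `k₀ = C`.  Suppose `#ι ≤ κ`.  The set of the `g_k o` is small; let `h` be an automorphism of `J`
which fixes `(I₀ ∪ {g_k o | k}) \ {o}` and moves `o`; `h ∈ G`, and `h (g_k o) ≠ o` for all `k` (if
`g_k o = o` then `h o ≠ o`; otherwise `h (g_k o) = g_k o`).  The map `D ↦ ĥ(D)` is a bijection of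
`ι`, so `C = ĥ(k)` for some `k : ι`, hence `ĥ ĝ_k c ∈ C`; but `c` is supported by `I₀ ∪ {o}`, so
`ĥ ĝ_k c` is supported by `I₀ ∪ {h (g_k o)} ⊆ {o}ᶜ`, that is, it is in `M`, which is disjoint from
`C`.  Contradiction. -/
def OrbStmt : Prop := ∀ (L : FirstOrder.Language.{u, u}) (κ : Cardinal.{u}) (K : AEC L κ),
  K.IsSparse → Nonempty K.EM → Nonempty (Orb K)

/-! ### The template -/

/-- **S_CLO** (uses DIS).  *Proof.*  Write `C_k = e k (C)`.  For `x, y ∈ C` choose a finite set
`p(x,y)` with `x, y ∈ p(x,y)` containing a path from `x` to `y` inside of `C` and for every edge of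
it all entries of a tuple witnessing the adjacency; these entries are in `C ∪ B` by closedness.  For
`s ∈ B` choose a finite `q(s) ⊆ C ∪ B` containing the entries of a tuple witnessing an adjacency of
`s` to an element of `C`.  For a small set `D ⊆ N` let `D_* = ⋃_k (e k)⁻¹(D ∩ C_k) ⊆ C`, and let
`D'` be a small strong substructure (`K.ls`) which contains `D`, `B`, and for every `k` with
`D ∩ C_k ≠ ∅` the set `e k (C ∩ (D_* ∪ ⋃_{x,y ∈ D_*} p(x,y) ∪ ⋃_{s ∈ B} q(s)))`.  Let `A⁰` be a
small strong substructure containing `e k c₀` for `κ` many `k` (`c₀ ∈ C`), `A^{n+1} = (A^n)'`,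
`A = ⨆ A^n`, strong by DIS, `As = A_*`, `Q = {k | A ∩ C_k ≠ ∅}`.  For `k ∈ Q`, `x ∈ C`: if
`e k x ∈ A` then `x ∈ As` by definition; if `x ∈ As` then `x ∈ (A^n)_*` and `A^n ∩ C_k ≠ ∅` for
some `n`, so `e k x ∈ A^{n+1}`.  `κ ≤ #Q ≤ #A ≤ κ`.  The elements of `p(x,y) ∩ C`
(`x, y ∈ As`) and of `q(s) ∩ C` are in `As`. -/
def CloStmt : Prop := ∀ (L : FirstOrder.Language.{u, u}) (κ : Cardinal.{u}) (K : AEC L κ)
  (O : Orb K), ∃ (A : L.Substructure O.N.α) (As : Set O.N.α) (Q : Set O.ι),
    K.emb A.subtype ∧ #A ≤ κ ∧ O.B ⊆ (A : Set O.N.α) ∧ As ⊆ O.C ∧ As.Nonempty ∧ #Q = κ ∧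
    (∀ k ∈ Q, ∀ x ∈ O.C, O.e k x ∈ A ↔ x ∈ As) ∧ (∀ k ∉ Q, ∀ x ∈ O.C, O.e k x ∉ A) ∧
    (∀ x ∈ As, ∀ y ∈ As,
      Relation.ReflTransGen (fun a b => adjIn L (As ∪ O.B) a b ∧ b ∈ As) x y) ∧
    ∀ s ∈ O.B, ∃ y ∈ As, adjIn L (As ∪ O.B) s y

/-- **S_PRM** (no hypotheses).  *Proof.*  Define `φ` by the two conditions; it is well defined by
`O.disj` and injectivity of `e k`, and bijective (inverse: the same for `π⁻¹`).  Let `v` be a tuple
in a relation `R`.  If some `v i ∈ e k (C)` then all `v j` are in `e k (C) ∪ B`: `v j = v i` or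
`adj (v i) (v j)`; apply `(e k)⁻¹`, `O.closed` and `O.fix`.  So `φ ∘ v = e (π k) ∘ (e k)⁻¹ ∘ v`
(elements of `B` are fixed by `e k`, `e (π k)` and by `φ`, since `B` is disjoint from all
`e k (C)`), which is in `R`.  Otherwise `φ ∘ v = v`.  The converse follows by applying this to
`π⁻¹`. -/
def PrmStmt : Prop := ∀ (L : FirstOrder.Language.{u, u}) [L.IsRelational] (κ : Cardinal.{u})
  (K : AEC L κ) (O : Orb K) (π : Equiv.Perm O.ι), ∃ φ : O.N.α ≃[L] O.N.α,
    (∀ k, ∀ x ∈ O.C, φ (O.e k x) = O.e (π k) x) ∧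
    ∀ y, (∀ k, ∀ x ∈ O.C, O.e k x ≠ y) → φ y = y

/-- **S_TP1** (the template for index sets of cardinality `κ`; uses CloStmt, PrmStmt).  *Proof.*
`P` = the substructure of `N` with the elements `X₀ ∪ As`, `X₀ = {x ∈ A | x ∉ ⋃ e k (C)}`, `τ.A =
As`, `τ.B = B` (elements of `P`).  The fields of `Tpl`: `#P ≤ κ` because `P` embeds into `A ∪ As`,
`#As ≤ #A`; `loc`: a relation tuple of `P` which meets `As ⊆ C` is in `C ∪ B`, and `P ∩ C = As`
because `X₀ ∩ C = ∅` (`C = e k₀ (C)` by `O.hk₀`); `conn`, `nbr` from the last two clauses of CloStmt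
(`adjIn (As ∪ B)` gives `adj` in the structure `P`).
For `T` and an injection `ν : T → ι` let `Φ_ν : W τ T → N`, `lo x ↦ x`, `hi t a ↦ e (ν t) a`.
It is injective.  It is an embedding: let `v` be a
tuple of `W τ T`.  If some `v i` has the tag `t` and (`Φ_ν ∘ v` is in `R`, or: there is at most one
tag and `pr ∘ v` is in `R`) then all other entries have the tag `t` or are in `lo B`; and then
`Φ_ν ∘ v = e (ν t) ∘ pr ∘ v`, so both are equivalent.  If there is no tag, `Φ_ν ∘ v = pr ∘ v`.
Let `#T = κ`, `ν₀ : T ≃ Q ⊆ ι`.  The range of `Φ_{ν₀}` is `A`, so `K.emb Φ_{ν₀}`.  Let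
`ν : T → ι` be any injection.  Since `κ < #ι` the complements of `Q` and of `ν(T)` have the same
cardinality `#ι`, so there is a permutation `π` of `ι` with `π ∘ ν₀ = ν`; with `φ` from PrmStmt
`φ ∘ Φ_{ν₀} = Φ_ν`, so `K.emb Φ_ν`.  If `f : T → T'` is injective, `#T = #T' = κ`, take
`ν : T' → ι` injective: `Φ_ν ∘ W.emb f = Φ_{ν ∘ f}`, so `K.emb (W.emb f)` by coherence. -/
def Tp1Stmt : Prop := ∀ (L : FirstOrder.Language.{u, u}) [L.IsRelational] (κ : Cardinal.{u})
  (K : AEC L κ), Nonempty (Orb K) → ∃ τ : Tpl L κ, ∀ (T T' : Type u) (f : T ↪ T'),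
    #T = κ → #T' = κ → K.emb (W.emb (τ := τ) f)

/-- **S_TPL** (uses Tp1Stmt, FIN).  *Proof.*  Let `κ ≤ #T`, `f : T → T'` injective.  Choose
`J₀ ⊆ range f` with `#J₀ = κ`.  In `U = W τ T'` let for a finite `s ⊆ T'` `M s` be the substructure
of the elements without tag or with tag in `J₀ ∪ s`.  For `s ⊆ t`, `M s ≃ W τ (J₀ ∪ s)`,
`M t ≃ W τ (J₀ ∪ t)` and the inclusion is `W.emb` of the inclusion, so it is a `K`-embedding by
Tp1Stmt.  By FIN, `unionOver M (range f) ≤_K unionOver M univ = ⊤`.  The first one is the range of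
`W.emb f`.  Compose with `W τ T ≃ range` and `⊤ ≃ W τ T'`. -/
def TplStmt : Prop := ∀ (L : FirstOrder.Language.{u, u}) [L.IsRelational] (κ : Cardinal.{u})
  (K : AEC L κ), Nonempty (Orb K) → ∃ τ : Tpl L κ, τ.OK K

/-! ### Stabilization -/

/-- **S_STA** (uses TRC, DLM, CCL).  *Proof.*  Otherwise for every `e : A → B` with `#B = l` there
are `f : B → C`, `#C = l` with `Ψ C (f ∘ e) ≠ f(Ψ B e)`, hence a proper superset.  TRC with
`J = (succ κ).ord.ToType`, `Q B = (#B = l)`, `c = κ` (closed by CCL, `κ ≤ l`) gives a chain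
`F, m, b`, and DLM its limit `G`, `s`, with `#G = l` by CCL (`#J = succ κ ≤ l`).  For `i : J` let
`i ⋖ j` and choose `y_i ∈ Ψ (F j) (b j)` not in the image of `Ψ (F i) (b i)`.  The elements
`s j y_i` are in `Ψ G _` and distinct (for `i < i'`: `j ≤ i'`, so `s j y_i` is in the image of
`Ψ (F i')`, and `s j' y_{i'}` is not).  So `#(Ψ G _) ≥ succ κ`.  Contradiction. -/
def StaStmt : Prop := ∀ (L : FirstOrder.Language.{u, u}) (κ : Cardinal.{u}) (K : AEC L κ)
  (l : Cardinal.{u}) (A : K.Mod) (Ψ : ∀ B : K.Mod, K.Hom A B → Set B.α), Order.succ κ ≤ l →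
  #A.α = l → (∀ (B : K.Mod) (e : K.Hom A B), #B.α = l → #(Ψ B e) ≤ κ) →
  (∀ (B C : K.Mod) (e : K.Hom A B) (f : K.Hom B C), #B.α = l → #C.α = l →
    f '' Ψ B e ⊆ Ψ C (f.comp e)) →
  ∃ (B : K.Mod) (e : K.Hom A B), #B.α = l ∧
    ∀ (C : K.Mod) (f : K.Hom B C), #C.α = l → Ψ C (f.comp e) = f '' Ψ B e

/-- **S_BGR** (small invariant sets do not grow; uses StaStmt).  *Proof.*  StaStmt for `A` and
`Ψ B _ = Φ B` gives `e : A → B`, `#B = l`, stable.  Let `f : A → C`, `#C = l`.  There is an
isomorphism `θ : B ≃ A` (categoricity); `g = f ∘ θ : B → C` is a `K`-embedding, so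
`Φ C = g(Φ B) = f(θ(Φ B)) = f(Φ A)`. -/
def BgrStmt : Prop := ∀ (L : FirstOrder.Language.{u, u}) (κ : Cardinal.{u}) (K : AEC L κ)
  (l : Cardinal.{u}) (Φ : ∀ B : K.Mod, Set B.α), Order.succ κ ≤ l → K.Cat l →
  (∀ A : K.Mod, #A.α = l → #(Φ A) ≤ κ) →
  (∀ (A B : K.Mod) (e : A.α ≃[L] B.α), #A.α = l → e '' Φ A = Φ B) →
  (∀ (A B : K.Mod) (f : K.Hom A B), #A.α = l → #B.α = l → f '' Φ A ⊆ Φ B) →
  ∀ (A B : K.Mod) (f : K.Hom A B), #A.α = l → #B.α = l → Φ B = f '' Φ A

/-! ### The structures `W τ T` -/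

/-- **S_WGR** (the Gaifman graph of `W τ T`; no hypotheses).  *Proof.*  A tuple of `W τ T` in a
relation which contains an element with the tag `t` consists of elements with the tag `t` and of
elements `lo s`, `s ∈ B` (`τ.loc`).  (1) `x = lo p`, `p ∈ B`: by `τ.nbr` there are a tuple `v` of
`P` in a relation containing `p` and some `a ∈ A`; its entries are in `A ∪ B` (`τ.loc`), so for
every `t` it lifts to a tuple of `W τ T` containing `lo p` and `hi t a`; so `x` has `≥ #T > κ`
neighbours.  `x = lo p`, `p ∉ B`: all neighbours have no tag, at most `#P ≤ κ`.  `x = hi t a`: all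
neighbours have the tag `t` or no tag, at most `κ + κ = κ`.  (2) (⊆): a step from an element with
the tag `t` to an element outside of `Sv` leads to an element with the tag `t`.  (⊇): lift a path
from `a` to `b` inside of `A` (`τ.conn`): the tuples which witness its edges meet `A`, so they are
in `A ∪ B` and lift to the copy `t`.  (3) if `x` has the tag `t` by (2) at most `#A ≤ κ`; if `x`
has no tag and is not in `Sv` then no path outside of `Sv` from `x` reaches an element with a tag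
(such a step would start from an element `lo s`, `s ∈ B`, by the remark), so at most `#P ≤ κ`. -/
def WgrStmt : Prop := ∀ (L : FirstOrder.Language.{u, u}) [L.IsRelational] (κ : Cardinal.{u})
  (τ : Tpl L κ) (T : Type u), ℵ₀ ≤ κ → κ < #T →
    (∀ x : W τ T, x ∈ Sv L κ (W τ T) ↔ x.tag = none ∧ x.pr ∈ τ.B) ∧
    (∀ (t : T) (a : τ.A), cmp L (Sv L κ (W τ T)) (W.hi t a) = {x | x.tag = some t}) ∧
    ∀ x : W τ T, x ∉ Sv L κ (W τ T) → #(cmp L (Sv L κ (W τ T)) x) ≤ κ

/-- **S_AUT** (automorphisms and components; no hypotheses).  *Proof.*  Adjacency is preserved by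
isomorphisms in both directions. -/
def AutStmt : Prop := ∀ (L : FirstOrder.Language.{u, u}) (κ : Cardinal.{u}) (M N : Type u)
  [L.Structure M] [L.Structure N] (e : M ≃[L] N),
    (∀ x y : M, adj L (e x) (e y) ↔ adj L x y) ∧ e '' Sv L κ M = Sv L κ N ∧
    e '' Xv L κ M = Xv L κ N ∧
    (∀ (T : Set M) (x : M), e '' cmp L T x = cmp L (e '' T) (e x)) ∧
    (∀ (T : Set M) (x y : M), x ∉ T → y ∉ T → con L T x y → con L T y x)

/-- **S_XVW** (uses WgrStmt, AutStmt).  *Proof.*  (1) `hi t a` has the images `hi t' a` (`W.eqv` of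
the transposition of `t`, `t'`), `#T > κ` many.  (2) automorphisms map `Sv` onto itself and
`#Sv ≤ #P ≤ κ` (WgrStmt (1)).  (3) If `x` has a tag take `e = id`.  Let `x` have no tag; it has more
than `κ` images, and there are at most `κ` elements without a tag, so there are an automorphism
`e₁` and `t` with `(e₁ x).tag = some t`.  For `t' : T` let `D_{t'}` be the set of the elements
which are mapped by `e₁` to elements with the tag `t'`; these sets are nonempty, pairwise disjoint,
and more than `κ` many, so there are `t'` and `z ∈ D_{t'}` with a tag `t''`.  `D_{t'}` is a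
component of the complement of `Sv` (AutStmt, WgrStmt (2)), so it is the component of `z`, the set
of all elements with the tag `t''`.  Let `e = e₁⁻¹ ∘ W.eqv (swap t t') ∘ e₁`.  It fixes `Sv`, since
`e₁` maps `Sv` to `Sv`, whose elements have no tag, and it maps `x` to an element of `D_{t'}`. -/
def XvwStmt : Prop := ∀ (L : FirstOrder.Language.{u, u}) [L.IsRelational] (κ : Cardinal.{u})
  (τ : Tpl L κ) (T : Type u), ℵ₀ ≤ κ → κ < #T →
    (∀ x : W τ T, x ∈ Xv L κ (W τ T) → x.tag = none) ∧ Sv L κ (W τ T) ⊆ Xv L κ (W τ T) ∧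
    ∀ x : W τ T, x ∉ Xv L κ (W τ T) → ∃ e : W τ T ≃[L] W τ T,
      (∀ y ∈ Sv L κ (W τ T), e y = y) ∧ (e x).tag ≠ none

/-- **S_TYP** (no hypotheses).  *Proof.*  `W τ T` is in `K` for `#T = l` (`τ.OK` for the identity),
and `#(W τ T) = #(P \ A) + #T * #A = l` because `#P ≤ κ < l`, `A` is nonempty; categoricity. -/
def TypStmt : Prop := ∀ (L : FirstOrder.Language.{u, u}) [L.IsRelational] (κ : Cardinal.{u})
  (K : AEC L κ) (τ : Tpl L κ), τ.OK K → (∀ T : Type u, κ < #T → #(W τ T) = #T) ∧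
    ∀ l : Cardinal.{u}, κ < l → K.Cat l → ∀ (M : K.Mod) (T : Type u), #M.α = l → #T = l →
      Nonempty (W τ T ≃[L] M.α)

/-- **S_SWP** (swapping two components; no hypotheses).  *Proof.*  `e` maps the component `D` of `x`
in the complement of `B` onto the component `D'` of `e x`.  If `D = D'` take `e` on `D` and the
identity elsewhere; otherwise take `e` on `D`, `e⁻¹` on `D'` and the identity elsewhere.  A tuple in
a relation which meets a component `D` of the complement of `B` is contained in `D ∪ B`, and `e`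
fixes `B`. -/
def SwpStmt : Prop := ∀ (L : FirstOrder.Language.{u, u}) [L.IsRelational] (M : Type u)
  [L.Structure M] (B : Set M) (x x' : M) (g : M → M), x ∉ B → x' ∉ B →
  (∀ y ∈ B, g y = y) → Set.BijOn g (cmp L B x) (cmp L B x') → g x = x' →
  (∀ (n : ℕ) (R : L.Relations n) (v : Fin n → M), (∀ i, v i ∈ B ∨ v i ∈ cmp L B x) →
    (Structure.RelMap R v ↔ Structure.RelMap R fun i => g (v i))) →
  ∃ h : M ≃[L] M, (∀ y ∈ B, h y = y) ∧ h x = x'

/-! ### Extensions in a categoricity cardinal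

The hypotheses `τ.OK K`, `succ κ ≤ l`, `K.Cat l` are abbreviated by `HL K τ l`. -/

/-- the standing hypotheses -/
def HL {L : FirstOrder.Language.{u, u}} [L.IsRelational] {κ : Cardinal.{u}} (K : AEC L κ)
    (τ : Tpl L κ) (l : Cardinal.{u}) : Prop := τ.OK K ∧ Order.succ κ ≤ l ∧ K.Cat l

/-- **S_SVC** (uses BgrStmt, WgrStmt, AutStmt, TypStmt).  *Proof.*  BgrStmt for `Φ = Sv`: small by
WgrStmt (1) and TypStmt, invariant by AutStmt, monotone since a `K`-embedding preserves
adjacency. -/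
def SvcStmt : Prop := ∀ (L : FirstOrder.Language.{u, u}) [L.IsRelational] (κ : Cardinal.{u})
  (K : AEC L κ) (τ : Tpl L κ) (l : Cardinal.{u}), HL K τ l →
  ∀ (M N : K.Mod) (f : K.Hom M N), #M.α = l → #N.α = l → Sv L κ N.α = f '' Sv L κ M.α

/-- `x` is frozen: its component does not grow in extensions of cardinality `l` -/
def Fr {L : FirstOrder.Language.{u, u}} {κ : Cardinal.{u}} {K : AEC L κ} (l : Cardinal.{u})
    (M : K.Mod) : Set M.α :=
  {x | x ∉ Sv L κ M.α ∧ ∀ (N : K.Mod) (f : K.Hom M N), #N.α = l →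
    cmp L (Sv L κ N.α) (f x) = f '' cmp L (Sv L κ M.α) x}

/-- **S_FRA** (uses StaStmt, SvcStmt, WgrStmt, AutStmt, TypStmt).  *Proof.*  StaStmt with `A = M`,
`Ψ B e = cmp (Sv B) (e x)`: small by WgrStmt (3) (`e x ∉ Sv B` by SvcStmt and injectivity of `e`),
monotone since `f` preserves adjacency and `Sv` (SvcStmt).  The stable `(N, e)` has `e x ∈ Fr`. -/
def FraStmt : Prop := ∀ (L : FirstOrder.Language.{u, u}) [L.IsRelational] (κ : Cardinal.{u})
  (K : AEC L κ) (τ : Tpl L κ) (l : Cardinal.{u}), HL K τ l →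
  ∀ (M : K.Mod) (x : M.α), #M.α = l → x ∉ Sv L κ M.α →
    ∃ (N : K.Mod) (e : K.Hom M N), #N.α = l ∧ e x ∈ Fr l N

/-- **S_FRM** (`Fr` is monotone and invariant; uses SvcStmt, AutStmt).  *Proof.*  If `x ∈ Fr M`,
`f : M → N`, `g : N → Q` then `cmp (g (f x)) = g(f(cmp x)) = g(cmp (f x))` and `f x ∉ Sv N` by
SvcStmt.  Invariance: transport along the isomorphism (which is a `K`-embedding in both
directions). -/
def FrmStmt : Prop := ∀ (L : FirstOrder.Language.{u, u}) [L.IsRelational] (κ : Cardinal.{u})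
  (K : AEC L κ) (τ : Tpl L κ) (l : Cardinal.{u}), HL K τ l →
  (∀ (M N : K.Mod) (f : K.Hom M N), #M.α = l → #N.α = l → f '' Fr l M ⊆ Fr l N) ∧
  (∀ (M N : K.Mod) (e : M.α ≃[L] N.α), #M.α = l → e '' Fr l M = Fr l N) ∧
  ∀ (M : K.Mod) (x y : M.α), #M.α = l → x ∈ Fr l M → y ∈ cmp L (Sv L κ M.α) x → y ∈ Fr l M

/-- **S_GFR** (generic components are frozen; uses BgrStmt, FraStmt, FrmStmt, XvwStmt, WgrStmt,
TypStmt, AutStmt).  *Proof.*  Suppose `x₀ ∉ Xv M₀`, `x₀ ∉ Fr M₀`, `#M₀ = l`.  Claim: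
`Fr M ⊆ Xv M` for all `M` with `#M = l`.  Let `x ∈ Fr M`, `x ∉ Xv M`.  Identify `M₀` and `M` with
`W τ T`, `#T = l` (TypStmt; `Fr`, `Xv` are invariant by FrmStmt, AutStmt).  By XvwStmt (3) there are
automorphisms mapping `x`, `x₀` to elements with tags `t`, `t₀`, by `W.eqv` of a transposition we
may assume `t = t₀`, and then they are in the same component (WgrStmt (2)), so `x₀ ∈ Fr` by FrmStmt
(3).  Contradiction.  So `Fr` is small (`Xv` is, since its elements have no tag: XvwStmt (1)),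
monotone and invariant, and BgrStmt gives `Fr N = f(Fr M)` for all `f : M → N`.  Take `M = M₀`,
`x = x₀` (`∉ Sv M₀`, since `Sv ⊆ Xv`) and `e : M₀ → N` with `e x₀ ∈ Fr N = e(Fr M₀)` by FraStmt:
`x₀ ∈ Fr M₀`.  Contradiction. -/
def GfrStmt : Prop := ∀ (L : FirstOrder.Language.{u, u}) [L.IsRelational] (κ : Cardinal.{u})
  (K : AEC L κ) (τ : Tpl L κ) (l : Cardinal.{u}), HL K τ l →
  ∀ (M : K.Mod) (x : M.α), #M.α = l → x ∉ Xv L κ M.α → x ∈ Fr l M

/-- **S_FR1** (one step; uses StaStmt, FraStmt, FrmStmt, GfrStmt, XvwStmt, TypStmt, AutStmt,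
SvcStmt).  *Proof.*  Let `NF = {x | x ∉ Sv M, x ∉ Fr M}`; `NF ⊆ Xv M` by GfrStmt, so it is small.
StaStmt with `A = M`, `Ψ B e = Fr B ∩ e(NF)` (monotone by FrmStmt) gives a stable `(N, e)`.  If
`x ∈ NF` and `e x ∉ Fr N` then by FraStmt (`e x ∉ Sv N` by SvcStmt) there is `g : N → N'` with
`g (e x) ∈ Fr N'`, so `g (e x) ∈ Ψ N' = g(Ψ N)`, `e x ∈ Fr N`.  Contradiction. -/
def Fr1Stmt : Prop := ∀ (L : FirstOrder.Language.{u, u}) [L.IsRelational] (κ : Cardinal.{u})
  (K : AEC L κ) (τ : Tpl L κ) (l : Cardinal.{u}), HL K τ l →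
  ∀ M : K.Mod, #M.α = l → ∃ (N : K.Mod) (e : K.Hom M N), #N.α = l ∧
    ∀ x : M.α, x ∉ Sv L κ M.α → e x ∈ Fr l N

/-- **S_FRZ** (all components are frozen; uses Fr1Stmt, FrmStmt, SvcStmt, AutStmt, TRC, DLM, CCL).
*Proof.*  TRC with `J = ULift ℕ` (`#(Iio j) ≤ κ`, CCL), `Q B = (#B = l)`,
`R A B e f = (∀ x ∉ Sv A, f x ∈ Fr B)` (steps by Fr1Stmt) gives an `ω`-chain; let `G`, `s` be its
limit (DLM), `#G = l` (CCL).  Let `y ∈ G`, `y ∉ Sv G`; `y = s n x`, `x ∉ Sv (F n)` by SvcStmt, so
`m n (n+1) x ∈ Fr (F (n+1))` and `y = s (n+1) (m n (n+1) x) ∈ Fr G` by FrmStmt.  So all elements of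
`G` outside of `Sv G` are frozen; by categoricity and invariance the same holds for `M`. -/
def FrzStmt : Prop := ∀ (L : FirstOrder.Language.{u, u}) [L.IsRelational] (κ : Cardinal.{u})
  (K : AEC L κ) (τ : Tpl L κ) (l : Cardinal.{u}), HL K τ l →
  ∀ (M N : K.Mod) (f : K.Hom M N) (x : M.α), #M.α = l → #N.α = l → x ∉ Sv L κ M.α →
    cmp L (Sv L κ N.α) (f x) = f '' cmp L (Sv L κ M.α) x

/-- **S_XVC** (uses BgrStmt, FrzStmt, SvcStmt, SwpStmt, XvwStmt, WgrStmt, AutStmt, TypStmt).
*Proof.*  BgrStmt for `Φ = Xv` (small by XvwStmt (1), invariant by AutStmt).  Monotone: let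
`f : M → N`, `x ∈ M`, `f x ∉ Xv N`; we show `x ∉ Xv M`.  `f x ∉ Sv N` (`Sv ⊆ Xv`), so `x ∉ Sv M`.
Let `φ : W τ T ≃ M`, `#T = l`.  The sets `f(φ{tag = t})`, `t : T`, are components of the complement
of `Sv N` (FrzStmt, WgrStmt (2)), more than `κ` many, so one of them, `D' = f(φ{tag = t})`,
contains an element outside of the small set `Xv N`.  By XvwStmt (3) (for `N ≃ W τ T`), `W.eqv` of a
transposition and WgrStmt (2) any two components of the complement of `Sv N` which contain elements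
outside of `Xv N` are exchanged by an automorphism of `N` fixing `Sv N`; so there is an automorphism
`e` of `N` fixing `Sv N` with `e(cmp (f x)) = D'`.  Since `cmp (f x) = f(cmp x)` by FrzStmt,
`g = f⁻¹ ∘ e ∘ f` maps `cmp x` bijectively onto the component `φ{tag = t}` and is the identity on
`Sv M` (`f(Sv M) = Sv N`), and preserves and reflects relations on `cmp x ∪ Sv M`.  By SwpStmt there
is an automorphism `h` of `M` with `h x = g x`, which is in `φ{tag = t}`, hence not in `Xv M`
(XvwStmt (1)); as `Xv M` is invariant, `x ∉ Xv M`. -/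
def XvcStmt : Prop := ∀ (L : FirstOrder.Language.{u, u}) [L.IsRelational] (κ : Cardinal.{u})
  (K : AEC L κ) (τ : Tpl L κ) (l : Cardinal.{u}), HL K τ l →
  ∀ (M N : K.Mod) (f : K.Hom M N), #M.α = l → #N.α = l → Xv L κ N.α = f '' Xv L κ M.α

/-- **S_GOD** (uses XvcStmt, FrzStmt, SvcStmt, XvwStmt, WgrStmt, AutStmt, TypStmt).  *Proof.*  Note
that `#T = l` (TypStmt: `#T = #(W τ T) = #M`, if `κ < #T`; `#T ≤ κ` is impossible because
`#(W τ T) ≤ κ` then).  Let `y ∉ f(M)`.  `y ∉ Xv N = f(Xv M)`.  The component `D` of `y` in the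
complement of `Sv N` is disjoint from `f(M)`: if `z = f w ∈ D` then `w ∉ Sv M`,
`D = cmp z = f(cmp w) ⊆ f(M)`.  As in XvcStmt there are `t : T` and an automorphism `e` of `N`
fixing `Sv N` which maps the component `f(φ{tag = t})` onto `D`.  `δ a = e (f (φ (hi t a)))`.
(1) injective, (2) the range is `D` (WgrStmt (2)), (3) disjoint from `f(M)`.  (4) A tuple in a
relation which meets `D` is contained in `D ∪ Sv N`, and `Sv N = f(Sv M) = f(φ(lo B))` (WgrStmt
(1)).  (5) Let `v, w` be as in (5).  Then `w i = e (f (φ (v' i)))` with `v' i = hi t ⟨v i, _⟩` or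
`v' i = lo ⟨v i, _⟩` (`e` fixes `f(φ(lo B)) = Sv N`), and `v'` is in `R` iff `v` is (one tag
only). -/
def GodStmt : Prop := ∀ (L : FirstOrder.Language.{u, u}) [L.IsRelational] (κ : Cardinal.{u})
  (K : AEC L κ) (τ : Tpl L κ) (l : Cardinal.{u}), HL K τ l →
  ∀ (M N : K.Mod) (f : K.Hom M N) (T : Type u) (φ : W τ T ≃[L] M.α), #M.α = l → #N.α = l →
    ∀ y : N.α, y ∉ Set.range f → Good τ f.toEmb φ y

/-! ### All extensions -/

/-- **S_ASM** (assembly; no hypotheses).  *Proof.*  Let `Bs = f(φ(lo B))`.  For a good point `y` the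
set `range δ` is the component of `y` in the complement of `Bs`: it is connected (`τ.conn` and (5)),
disjoint from `Bs`, and closed under adjacency outside of `Bs` by (4).  So the sets `D_y = range δ`
of two good points are equal or disjoint.  Let `U` be the set of the `D_y` (a type in `Type u`), for
`u : U` choose `δ_u`.  `T' = T ⊕ U`, `j = inl`, `φ' (lo p) = f (φ (lo p))`,
`φ' (hi (inl t) a) = f (φ (hi t a))`, `φ' (hi (inr u) a) = δ_u a`.  `φ'` is bijective.  Relations:
let `v` be a tuple of `W τ T'`.  If it contains an element with a tag `inr u` and (`φ' ∘ v` is in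
`R`, or at most one tag occurs and `pr ∘ v` is in `R`) then all entries have the tag `inr u` or are
`lo s`, `s ∈ B` (by (4), resp. by `τ.loc`), and (5) with the tuples `pr ∘ v` and `φ' ∘ v` gives the
equivalence.  If it contains no such element then `v = W.fn inl ∘ v₁` and `φ' ∘ v = f ∘ φ ∘ v₁`,
and `f`, `φ`, `W.fn inl` preserve and reflect relations. -/
def AsmStmt : Prop := ∀ (L : FirstOrder.Language.{u, u}) [L.IsRelational] (κ : Cardinal.{u})
  (τ : Tpl L κ) (T M N : Type u) [L.Structure M] [L.Structure N] (f : M ↪[L] N)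
  (φ : W τ T ≃[L] M), (∀ y, y ∉ Set.range f → Good τ f φ y) →
  ∃ (T' : Type u) (j : T ↪ T') (φ' : W τ T' ≃[L] N), ∀ x, φ' (W.fn j x) = f (φ x)

/-- **S_PAR** (uses GodStmt, FrzStmt, SvcStmt, WgrStmt, AutStmt, TypStmt).  *Proof.*  `κ < l ≤ #M`,
so `#T = #M ≥ l` (TypStmt).  Choose `T₁ ⊆ T` with `#T₁ = l`.  For `T₁ ⊆ T'' ⊆ T` with `#T'' = l` the
image `M'' = f(φ(W.fn (W τ T'')))` is a strong substructure of `N` (`τ.OK`, composition) of
cardinality `l`, isomorphic to `W τ T''`.  Let `y ∉ range f`.  By `K.ls` there is a strong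
substructure `N₁` of `N` of cardinality `l` containing `M₁ = M''(T₁)` and `y`; the inclusion
`M₁ → N₁` is a `K`-embedding by coherence.  By GodStmt `y` is good for `M₁ → N₁`: `δ`, `D = range
δ`, `D` is the component of `y` in the complement of `Sv N₁` in `N₁` (connected by (5) and
`τ.conn`, closed by (4); `Sv N₁ = f(φ(lo B)) =: Bs` by SvcStmt and WgrStmt (1)).  We check that the
same `δ` works for `f`.  (1), (2) clear.  (3) Suppose `δ a = f (φ z) `.  `z ∉` (elements without
tag: they are in `M₁`), so `z` has a tag `t`, `t ∉ T₁`.  Let `N₂` be strong of cardinality `l`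
containing `N₁` and `M''(T₁ ∪ {t})`.  By FrzStmt for `N₁ → N₂` `D` is a component in `N₂` of the
complement of `Bs = Sv N₂`; by FrzStmt for `M''(T₁ ∪ {t}) → N₂` and WgrStmt (2) so is
`f(φ{tag = t})`; they meet, so they are equal and `y ∈ f(M)`.  Contradiction.  (4) Let `v` be a
tuple of `N` in a relation which meets `D`; let `N₃` be strong of cardinality `l` containing `N₁`
and the entries of `v`.  `D` is a component of `N₃ \ Sv N₃` (FrzStmt), so every `v i` is in `D` or
in `Sv N₃ = Bs`.  (5) as in `N₁`, which is an induced substructure. -/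
def ParStmt : Prop := ∀ (L : FirstOrder.Language.{u, u}) [L.IsRelational] (κ : Cardinal.{u})
  (K : AEC L κ) (τ : Tpl L κ) (l : Cardinal.{u}), HL K τ l →
  ∀ (M N : K.Mod) (f : K.Hom M N) (T : Type u) (φ : W τ T ≃[L] M.α), l ≤ #M.α →
    ∀ y : N.α, y ∉ Set.range f → Good τ f.toEmb φ y

/-- **S_CAT** (uses ParStmt, AsmStmt, TypStmt).  *Proof.*  Let `l ≤ χ`.  Every `Q` in `K` with
`#Q = χ` is isomorphic to `W τ T'`, `#T' = χ`: by `K.ls` there is a strong substructure `M` of
cardinality `l`; `φ : W τ T ≃ M` by TypStmt; ParStmt and AsmStmt for `M → Q` give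
`W τ T' ≃ Q`, and `#T' = χ` by TypStmt (`κ < #T'` because `#(W τ T') ≤ κ` otherwise).  `W τ T'`
with `#T' = χ` is in `K` (`τ.OK`).  So `K.Cat χ`.  Amalgamation: let `f₁ : M₀ → M₁`,
`f₂ : M₀ → M₂` with all cardinalities `χ`; `φ : W τ T ≃ M₀`; ParStmt and AsmStmt give
`j_i : T → T_i`, `φ_i : W τ T_i ≃ M_i` with `φ_i ∘ W.fn j_i = f_i ∘ φ`.  Let `Z`, `k_i : T_i → Z`
be injections with `k₁ ∘ j₁ = k₂ ∘ j₂` (`Z = T ⊕ (T₁ \ j₁ T) ⊕ (T₂ \ j₂ T)`).  `N = W τ Z`,
`g_i = W.emb k_i ∘ φ_i⁻¹`, `K`-embeddings by `τ.OK` (`#T_i ≥ κ`). -/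
def CatStmt : Prop := ∀ (L : FirstOrder.Language.{u, u}) [L.IsRelational] (κ : Cardinal.{u})
  (K : AEC L κ) (τ : Tpl L κ) (l : Cardinal.{u}), HL K τ l →
  ∀ χ : Cardinal.{u}, l ≤ χ → K.Cat χ ∧ K.AP χ

/-! ### The final theorem -/

/-- **S_HN2** (Hanf argument; uses SML, LNG).  *Proof.*  As HNF.  Let
`T = Σ F R : ℕ → Set κ.out, AEC (codeLang F R) κ`, a small type by SML.  For `K0` in `T` let
`b(K0)` be a bound of `{l | K0.Cat l}` if there is one, and otherwise an `l ≥ succ κ` with
`K0.Cat l`.  Let `μ` be larger than all `b(K0)`.  Let `K` be categorical in some `l ≥ μ`; take `K0`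
by LNG; `K0.Cat l`, so `{l | K0.Cat l}` is unbounded, and `l₀ = b(K0)` works; `K.ArbLarge` because
there are members of all the cardinalities in `{l | K.Cat l}`. -/
def Hn2Stmt : Prop := ∀ κ : Cardinal.{u}, ∃ μ : Cardinal.{u},
  ∀ (L : FirstOrder.Language.{u, u}) (K : AEC L κ), (∃ l, μ ≤ l ∧ K.Cat l) →
    K.ArbLarge ∧ ∃ l₀, Order.succ κ ≤ l₀ ∧ l₀ ≤ μ ∧ K.Cat l₀

/-- **S_FIN** (Theorem S; uses Hn2Stmt, TPA, TPB, EMX, OrbStmt, TplStmt, CatStmt).  *Proof.*  `μ`
from Hn2Stmt.  `K.ArbLarge` gives an Ehrenfeucht-Mostowski functor (TPA, TPB, EMX), OrbStmt and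
TplStmt a template `τ` with `τ.OK K`, and CatStmt for `l₀ ≤ μ` gives the claim for all
`χ ≥ μ ≥ l₀`. -/
def SfnStmt : Prop := ∀ κ : Cardinal.{u}, ∃ μ : Cardinal.{u},
  ∀ (L : FirstOrder.Language.{u, u}) [L.IsRelational] (K : AEC L κ), K.IsSparse →
    (∃ l, μ ≤ l ∧ K.Cat l) → ∀ χ : Cardinal.{u}, μ ≤ χ → K.Cat χ ∧ K.AP χ

/-! ### Examples of sparse structures -/

/-- the Gaifman graph -/
def gg (L : FirstOrder.Language.{u, u}) (N : Type u) [L.Structure N] : SimpleGraph N where
  Adj := adj L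
  symm := ⟨fun _ _ h => ⟨h.1.symm, by
    obtain ⟨n, R, v, hv, hx, hy⟩ := h.2
    exact ⟨n, R, v, hv, hy, hx⟩⟩⟩
  loopless := ⟨fun _ h => h.1 rfl⟩

/-- **S_EXA** (no hypotheses).  *Proof.*  Let `#Z > κ`.  If two elements of `Z` are in different
components of the Gaifman graph take `T = ∅`.  Otherwise fix `x₀ ∈ Z`; `Z ⊆ cmp ∅ x₀ =: C`, and let
`D` be the small set of the hypothesis for `x₀`.  `Z \ D` has more than `κ ≥ ℵ₀` elements, so there
are three different ones, and two of these, `x, y`, are not adjacent (a forest has no triangles).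
If there is no path from `x` to `y` in `C \ D` take `T = D ∩ C` (a path from `x ∈ C` stays in
`C`).  Otherwise let `z` be the second vertex of the path from `x` to `y` in `C \ D`;
`T = (D ∩ C) ∪ {z}`: a path from `x` to `y` avoiding `T` would be in `C \ D` another path in the
forest (`SimpleGraph.IsAcyclic.path_unique`; or: the edge `x z` is a bridge,
`SimpleGraph.isAcyclic_iff_forall_edge_isBridge`). -/
def ExaStmt : Prop := ∀ (L : FirstOrder.Language.{u, u}) (κ : Cardinal.{u}) (N : Type u)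
  [L.Structure N], ℵ₀ ≤ κ →
    (∀ x : N, ∃ D : Set N, #D ≤ κ ∧
      ((gg L N).induce {y | y ∈ cmp L (∅ : Set N) x ∧ y ∉ D}).IsAcyclic) → Sparse L κ N

end S

end Pool.Agent.AEC
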