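import Pool.Agent.AEC.DefsZ

/-!
# Squad AEC (problem MP_23d7af_lc): statements, part Z

Theorem Z (density of amalgamation bases in ZFC), Theorem C (the same with an
Ehrenfeucht-Mostowski functor) and Theorem A (Theorem W2 without Ehrenfeucht-Mostowski functor and
without Hanf number).

Every statement is a definition `XxxStmt : Prop`; its docstring contains a complete proof.  A row
`XXX` asks for a theorem `xxx : (hypotheses) → XxxStmt`, where the hypotheses are the statements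
listed in the column `uses` of the table `aec` (statements of `StmtsB.lean` or of this file).
-/

open FirstOrder FirstOrder.Language Cardinal Set

universe u

namespace Pool.Agent.AEC

/-! ## Members placed on subsets of a set -/

/-- **DGE** (the diagram determines the structure; no hypotheses).  *Proof.*  The `el`-facts say
`range φ = range ψ`, so there is a bijection `e : A ≃ B` with `ψ (e a) = φ a`.  For a function
symbol `f` the fact `fn n f (φ ∘ y) (φ (f y))` belongs to `dg A φ = dg B ψ`, so there is `y'` with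
`ψ (y' i) = φ (y i) = ψ (e (y i))`, that is `y' = e ∘ y`, and `ψ (f y') = φ (f y) = ψ (e (f y))`;
hence `f (e ∘ y) = e (f y)`.  In the same way `R y ↔ R (e ∘ y)`. -/
def DgeStmt : Prop := ∀ (L : FirstOrder.Language.{u, u}) (Ω A B : Type u) [L.Structure A]
  [L.Structure B] (φ : A → Ω) (ψ : B → Ω), Function.Injective φ → Function.Injective ψ →
  dg (L := L) A φ = dg (L := L) B ψ → ∃ e : A ≃[L] B, ∀ x, ψ (e x) = φ x

/-- **EXR** (representatives; uses DGE).  *Proof.*  (1) Let `D ≤_𝒦 D'` be given by `P₀`, `P₀'`,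
`f₀`.  By DGE there are isomorphisms `e : P.A ≃ P₀.A`, `e' : P₀'.A ≃ P'.A` compatible with the
maps to `Ω`; take `f = e' ∘ f₀ ∘ e`.  (2) Compose, using (1) for the representatives of the middle
diagram.  (3) `Hom.id`.  (4) If `f` is an embedding of structures with `P'.φ (f x) = P.φ x` then
every fact of `dg P.A P.φ` is a fact of `dg P'.A P'.φ` (take `f ∘ y` for `y`). -/
def ExrStmt : Prop := ∀ (L : FirstOrder.Language.{u, u}) (κ : Cardinal.{u}) (K : AEC L κ)
  (Ω : Type u),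
  (∀ (D D' : Set (Fact L Ω)), K.Ext D D' → ∀ (P : K.Plc D) (P' : K.Plc D'),
    ∃ f : K.Hom P.A P'.A, ∀ x, P'.φ (f x) = P.φ x) ∧
  (∀ D D' D'' : Set (Fact L Ω), K.Ext D D' → K.Ext D' D'' → K.Ext D D'') ∧
  (∀ (D : Set (Fact L Ω)), Nonempty (K.Plc D) → K.Ext D D) ∧
  (∀ D D' : Set (Fact L Ω), K.Ext D D' → D ⊆ D')

/-- **UNZ** (unions of chains of diagrams; uses EXR, DLM).  *Proof.*  Choose `P i : K.Plc (D i)`
(from `K.Ext (D i) (D i)`) and, by EXR, `m i j : P i → P j` with `(P j).φ ∘ m i j = (P i).φ`; since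
the maps `φ` are injective, `m i i = id` and `m j k ∘ m i j = m i k`.  Let `G`, `s i` be the direct
limit (DLM).  Every `y : G` is `s i x`; put `Φ y = (P i).φ x`.  This is well defined and injective:
if `y = s i x`, `y' = s j x'`, say `i ≤ j`, then `y = s j (m i j x)` and `(P i).φ x =
(P j).φ (m i j x)`, so `y = y'` iff `m i j x = x'` iff `(P i).φ x = (P j).φ x'`.  Moreover
`Φ (s i x) = (P i).φ x`.  `dg G Φ = ⋃ j, D j`: since `s j` is an embedding with
`Φ ∘ s j = (P j).φ` we have `D j ⊆ dg G Φ` (as in EXR (4)), and conversely a fact of `dg G Φ`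
concerns a finite tuple `y` of `G`, which comes from a single `P j` (finitely many indices in a
linear order; for `n = 0` any `j`).  So `⟨G, Φ, _, _⟩` is a placed member with diagram `⋃ j, D j`
and `s i` shows `D i ≤_𝒦 ⋃ j, D j`. -/
def UnzStmt : Prop := ∀ (L : FirstOrder.Language.{u, u}) (κ : Cardinal.{u}) (K : AEC L κ)
  (Ω J : Type u) [LinearOrder J] [Nonempty J] (D : J → Set (Fact L Ω)),
  (∀ i j, i ≤ j → K.Ext (D i) (D j)) → ∀ i, K.Ext (D i) (⋃ j, D j)

/-- **PLE** (extension of an injection; pure set theory, no hypotheses).  *Proof.*  Let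
`θ : B → (range φ)ᶜ` be injective and `ψ b = φ a` if `b = g a`, `ψ b = θ b` if `b` is not in the
range of `g`. -/
def PleStmt : Prop := ∀ (A B Ω : Type u) (g : A → B) (φ : A → Ω), Function.Injective g →
  Function.Injective φ → #B ≤ #((range φ)ᶜ : Set Ω) →
  ∃ ψ : B → Ω, Function.Injective ψ ∧ ∀ x, ψ (g x) = φ x

/-- **SPL** (splitting of a diagram; uses DGE, EXR, PLE).  *Proof.*  Let `P` be a placed member
with diagram `D`.  By EXR there is a `𝒦`-embedding `P0.A → P.A`.  `pts D = range P.φ`, so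
`#P.A = #(pts D) < #Ω` and `P.A` is not a base: there are `f₁ : P.A → B₁`, `f₂ : P.A → B₂` with
`#B₁ = #B₂ = #P.A` which cannot be amalgamated.  The complement of `pts D` has cardinality `#Ω`
(`Cardinal.mk_compl_of_infinite`), so by PLE there are injective `ψ b : B_b → Ω` with
`ψ b ∘ f_b = P.φ`; let `D_b = dg B_b ψ_b`.  Then `K.Ext D D_b` and
`#(pts D_b) = #B_b = #(pts D)`.  For `K.Inc D D₁ D₂` let `P₁`, `P₂`, `w₁`, `w₂` be given; by DGE
there are isomorphisms `e_b : B_b ≃ P_b.A` with `P_b.φ ∘ e_b = ψ_b`.  If `w₁ x = w₂ y` whenever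
`P₁.φ x = P₂.φ y ∈ pts D`, then for `a` in `P.A`, `x = e₁ (f₁ a)` and `y = e₂ (f₂ a)` satisfy
`P₁.φ x = P.φ a = P₂.φ y ∈ pts D`, so `w₁ ∘ e₁`, `w₂ ∘ e₂` amalgamate `f₁`, `f₂`:
contradiction. -/
def SplStmt : Prop := ∀ (L : FirstOrder.Language.{u, u}) (κ : Cardinal.{u}) (K : AEC L κ)
  (Ω : Type u) (D0 D : Set (Fact L Ω)) (P0 : K.Plc D0), ℵ₀ ≤ #Ω → K.Ext D0 D → #(pts D) < #Ω →
  (∀ (N : K.Mod) (_ : K.Hom P0.A N), #N.α < #Ω → ¬ AEC.IsBase N) →
  ∃ D₁ D₂ : Set (Fact L Ω), K.Ext D D₁ ∧ K.Ext D D₂ ∧ #(pts D₁) = #(pts D) ∧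
    #(pts D₂) = #(pts D) ∧ K.Inc D D₁ D₂

/-! ## The tree -/

/-- **TRE** (the tree; uses EXR, UNZ, SPL).  *Proof.*  Let `I = θ.ord.ToType`, `Ω = I`, so
`#Ω = θ` is infinite; since `#M < θ` there is an injection `φ₀ : M → Ω`; let `D0 = dg M φ₀`, placed
by `P0 = ⟨M, φ₀, _, rfl⟩`.  By SPL choose for every diagram `D` with `K.Ext D0 D`, `#(pts D) < θ`
diagrams `st false D`, `st true D` with `K.Ext D (st b D)`, `#(pts (st b D)) = #(pts D)` and
`K.Inc D (st false D) (st true D)`; for the other `D` let `st b D = D`.  By well-founded recursion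
(`WellFounded.fix`, `WellFounded.fix_eq`)
`T η i = D0 ∪ ⋃ j : Iio i, st (η j) (T η j)`.  Write `E η j = st (η j) (T η j)`.
Claim: for all `i`: (a) `K.Ext D0 (T η i)`; (b) `#(pts (T η i)) ≤ max #M #(Iio i)` (which is `< θ`,
`Cardinal.mk_Iio_lt`); (c) `K.Ext (E η j) (T η i)` for all `j < i`.  By well-founded induction on
`i`.  If `Iio i` is empty then `T η i = D0`.  Otherwise, by (a), (b) for `j < i`,
`K.Ext (T η j) (E η j)` and `#(pts (E η j)) ≤ max #M #(Iio j)`; for `j < j' < i`,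
`K.Ext (E η j) (T η j')` by (c) for `j'`, so `K.Ext (E η j) (E η j')` (EXR (2)).  `D0 ⊆ E η j` by
EXR (4), so `T η i = ⋃ j : Iio i, E η j`, and UNZ (index set `Iio i`) gives (c); (a) follows by
transitivity; `pts` of the union is the union of the `pts (E η j)`, of cardinality
`≤ #(Iio i) * max #M #(Iio i) = max #M #(Iio i)` (`#M` is infinite).
Let `T' η = ⋃ j, E η j`; UNZ with index set `I` (which is not empty) gives `K.Ext (E η j) (T' η)`
for all `j`; let `⟨G η, ψ η, _, _⟩` be a placed member with diagram `T' η`, `e η` a `𝒦`-embedding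
`M → G η` (EXR (1) for `K.Ext D0 (T' η)`, `P0`), and `P η i = pts (T η i)`.
`local'`: `T η i` only depends on `η` below `i` (induction).  `cont`: if `i` is a limit and `j < i`
there is `k` with `j < k < i`, and `E η j ⊆ T η k`; also `D0 ⊆ T η k`; conversely
`T η k ⊆ E η k ⊆ T η i` for `k < i`.  `inc`: let `η = ν` below `i`, `η i ≠ ν i`; by `local'` for
diagrams `D := T η i = T ν i`, and `{E η i, E ν i} = {st false D, st true D}`.  Let `P`, `P'` be
placed members with diagrams `E η i`, `E ν i` and `u : P.A → G η`, `v : P'.A → G ν` by EXR (1).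
Apply `K.Inc D (st false D) (st true D)` to `f.comp u`, `g.comp v` (in the right order): there
are `x`, `y` with `P.φ x = P'.φ y ∈ pts D` and `f (u x) ≠ g (v y)`; and `ψ η (u x) = P.φ x`,
`ψ ν (v y) = P'.φ y`. -/
def TreStmt : Prop := ∀ (L : FirstOrder.Language.{u, u}) (κ : Cardinal.{u}) (K : AEC L κ)
  (M : K.Mod) (θ : Cardinal.{u}), ℵ₀ ≤ #M.α → #M.α < θ →
  (∀ (N : K.Mod) (_ : K.Hom M N), #N.α < θ → ¬ AEC.IsBase N) →
  Nonempty (K.Tree M θ.ord.ToType)

/-- **COD** (coding; pure set theory; done: `Pool/Agent/Helper64_AEC/Cod.lean`).  `S η i` is the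
state of the branch `η` at the level `i`.  If the state at `i` determines `η i`, if the states at
limits are determined by the earlier ones, and if there are at most `2 ^ χ` states, then
`2 ^ #I ≤ 2 ^ χ`. -/
def CodStmt : Prop := ∀ (I X : Type u) [LinearOrder I] [WellFoundedLT I] [NoMaxOrder I]
  [Nonempty I] (χ : Cardinal.{u}) (S : (I → Bool) → I → X), ℵ₀ ≤ χ → #X ≤ 2 ^ χ →
  (∀ η ν i, S η i = S ν i → η i = ν i) →
  (∀ i, Order.IsSuccLimit i → ∀ η ν, (∀ j < i, S η j = S ν j) → S η i = S ν i) →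
  (2 : Cardinal.{u}) ^ #I ≤ 2 ^ χ

/-- **CSS** (counting small subsets; done: `Pool/Agent/Helper64_AEC/Cod.lean`). -/
def CssStmt : Prop := ∀ (T : Type u) (χ θ : Cardinal.{u}), ℵ₀ ≤ χ → #T ≤ 2 ^ χ → θ ≤ 2 ^ χ →
  (∀ μ < θ, (2 : Cardinal.{u}) ^ μ ≤ 2 ^ χ) → #{Z : Set T // #Z < θ} ≤ 2 ^ χ

/-- **ZTG** (a small target gives bases; uses TRE, COD, CSS).  *Proof.*  Let `χ = #M`.  `χ < θ`
because `2 ^ χ < 2 ^ θ`, and `θ ≤ 2 ^ χ` (otherwise `2 ^ (2 ^ χ) ≤ 2 ^ χ`, against Cantor).
Assume that the conclusion fails and let `t` be the tree of TRE; `I = θ.ord.ToType` has no maximum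
(`θ` infinite).  For every `η`, `#(G η) ≤ #Ω ≤ θ` by injectivity of `ψ η`, so we can choose
`f η : K.Hom (G η) T`.  Let the state `S η i` be the subset
`{inl j | j < i, η j = true} ∪ {inr (ψ η x, f η x) | ψ η x ∈ P η i}` of `I ⊕ (Ω × T)`; it has at
most `#(Iio i) + #(P η i) < θ` elements (`card_P`, `Cardinal.mk_Iio_lt`; `θ` is infinite).  By CSS
there are at most `2 ^ χ` such states (`#(I ⊕ Ω × T) ≤ θ + θ * 2 ^ χ ≤ 2 ^ χ`).
(S1) If `S η i = S ν i` then `η = ν` below `i`, so `P η i = P ν i`.  If `η i ≠ ν i` then `inc` with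
`f η`, `f ν` gives `x`, `y` with `ψ η x = ψ ν y ∈ P η i`, `f η x ≠ f ν y`; but
`inr (ψ η x, f η x)` is in `S η i = S ν i`, so there is `y'` with `ψ ν y' = ψ η x = ψ ν y`, hence
`y' = y` and `f ν y = f η x`: contradiction.
(S2) Let `i` be a limit and `S η j = S ν j` for all `j < i`.  By (S1) `η j = ν j` for `j < i`.  If
`ψ η x ∈ P η i` then by `cont` `ψ η x ∈ P η j` for some `j < i`, so `inr (ψ η x, f η x)` is in
`S η j = S ν j ⊆ S ν i` (`P ν j ⊆ P ν i` by `cont`).
COD gives `2 ^ θ ≤ 2 ^ χ`, a contradiction. -/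
def ZtgStmt : Prop := ∀ (L : FirstOrder.Language.{u, u}) (κ : Cardinal.{u}) (K : AEC L κ)
  (M T : K.Mod) (θ : Cardinal.{u}), ℵ₀ ≤ #M.α → (2 : Cardinal.{u}) ^ #M.α < 2 ^ θ →
  (∀ μ < θ, (2 : Cardinal.{u}) ^ μ ≤ 2 ^ #M.α) → #T.α ≤ 2 ^ #M.α →
  (∀ (N : K.Mod) (_ : K.Hom M N), #N.α ≤ θ → Nonempty (K.Hom N T)) →
  ∃ (N : K.Mod) (_ : K.Hom M N), #N.α < θ ∧ AEC.IsBase N

/-- **SZP** (extensions of prescribed size, local form of SIZ; uses TRC, DLM, CCL).  *Proof.*
Assume that there is no extension of `M` of cardinality `l`.  Then every extension `A` of `M` with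
`#A ≤ l` has `#A < l` and is not maximal.  Apply TRC with `A0 = M`, `Q A = (#A ≤ l)`,
`R A B e f = (f is not surjective)`, `J = l.ord.ToType` (`#(Iio j) < l`), `c = l` (`ChainClosed` by
CCL).  Step: let `e : M → A`, `#A ≤ l`; `A` is not maximal, so there are `A'` and `f' : A → A'`
not surjective; take `x` not in the range of `f'` and by `K.ls` a strong `S` in `A'` with
`range f' ∪ {x} ⊆ S`, `#S ≤ #A + 1 + κ ≤ l`; `B = sub A' S`, and `f'` factors through it
(`Hom.exists_factor`).  Let `G`, `s` be the direct limit (DLM) of the chain obtained.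
`#G ≤ #J * l = l`.  For every `i : J` there is `j` with `i ⋖ j` (`J` has no maximum because `l` is
infinite); choose `y_i` in `F j` not in the range of `m i j`; the elements `s j y_i` of `G` are
distinct (if `i < i'`, `i ⋖ j`, `i' ⋖ j'` then `j ≤ i'`, and `s j y_i = s j' (m i' j' (m j i' y_i))`
is different from `s j' y_{i'}`), so `l = #J ≤ #G`.  So `G` is an extension of cardinality `l`
(`s j ∘ b j : M → G`): contradiction. -/
def SzpStmt : Prop := ∀ (L : FirstOrder.Language.{u, u}) (κ : Cardinal.{u}) (K : AEC L κ)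
  (M : K.Mod) (l : Cardinal.{u}), #M.α + κ ≤ l →
  (∀ (N : K.Mod) (_ : K.Hom M N), #N.α < l → ¬ AEC.IsMax N) →
  ∃ (N : K.Mod) (_ : K.Hom M N), #N.α = l

/-- **MXB** (maximal members are bases; no hypotheses).  *Proof.*  `f₁ : N → B₁` is surjective,
hence bijective, and has an inverse `g : B₁ → N` in the class (`Hom.exists_factor` applied to
`Hom.id B₁` and `f₁`).  Take `Z = B₂`, `w₁ = f₂.comp g`, `w₂ = Hom.id B₂`. -/
def MxbStmt : Prop := ∀ (L : FirstOrder.Language.{u, u}) (κ : Cardinal.{u}) (K : AEC L κ)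
  (N : K.Mod), AEC.IsMax N → AEC.IsBase N

/-- **ZLA** (Theorem Z: density of amalgamation bases; uses ZTG, SZP, MXB).  *Proof.*  Assume that
the conclusion fails.  By MXB no extension `N` of `M` with `#N < l` is maximal.  Let `θ` be the
least cardinal with `2 ^ #M < 2 ^ θ`; `θ ≤ l`, and `2 ^ μ ≤ 2 ^ #M` for `μ < θ`; `#M < θ`.  Let `T`
be a member of cardinality `l ≤ 2 ^ #M` (by categoricity).  Let `N` be an extension of `M` with
`#N ≤ θ`; `#N + κ ≤ l` because `κ ≤ #M < θ ≤ l`; by SZP (the extensions of `N` are extensions of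
`M`) `N` has an extension of cardinality `l`, which is isomorphic to `T`.  By ZTG there is an
extension `N` of `M` with `#N < θ` which is a base.  `#N < θ ≤ l`, and `2 ^ #N ≤ 2 ^ #M` by the
choice of `θ`, `2 ^ #M ≤ 2 ^ #N` since `M` embeds in `N`. -/
def ZlaStmt : Prop := ∀ (L : FirstOrder.Language.{u, u}) (κ : Cardinal.{u}) (K : AEC L κ)
  (M : K.Mod) (l : Cardinal.{u}), κ ≤ #M.α → l ≤ 2 ^ #M.α → (2 : Cardinal.{u}) ^ #M.α < 2 ^ l →
  K.Cat l → ∃ (N : K.Mod) (_ : K.Hom M N), #N.α < l ∧ AEC.IsBase N ∧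
    (AEC.IsMax N ∨ (2 : Cardinal.{u}) ^ #N.α = 2 ^ #M.α)

/-- **ZCO** (corollary; uses ZLA).  If the class is categorical in all cardinals between `χ` and
`2 ^ χ` then there is a cardinal `μ`, `χ ≤ μ < 2 ^ χ`, in which it has the amalgamation property.
*Proof.*  Let `M` be a member of cardinality `χ` (categoricity), `l = 2 ^ χ` (so
`2 ^ χ < 2 ^ l` by Cantor).  ZLA gives a base `N` with `#M ≤ #N < l`; let `μ = #N`.  By
categoricity in `μ` every member of cardinality `μ` is isomorphic to `N`, hence a base. -/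
def ZcoStmt : Prop := ∀ (L : FirstOrder.Language.{u, u}) (κ : Cardinal.{u}) (K : AEC L κ)
  (χ : Cardinal.{u}), κ ≤ χ → (∀ l, χ ≤ l → l ≤ 2 ^ χ → K.Cat l) →
  ∃ μ, χ ≤ μ ∧ μ < 2 ^ χ ∧ ∀ N : K.Mod, #N.α = μ → AEC.IsBase N

/-! ## Theorem C: with an Ehrenfeucht-Mostowski functor -/

/-- **KBO** (a linear order which is universal for small well-orders; pure order theory, no
hypotheses).  *Proof.*  Let `I = θ.ord.ToType` and `U = List I` with the lexicographic order
(`[] < a :: l`; `a :: l < a' :: l'` iff `a < a'` or `a = a'` and `l < l'`), `#U = θ`.  Claim: for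
every ordinal `ζ` with `ζ.card ≤ θ` there is `f : Ordinal → U` strictly increasing on `Iio ζ`.
Induction on `ζ`.  `ζ = 0`: trivial.  `ζ = ζ' + 1`: choose `a < b` in `I` and put
`g x = a :: f x` for `x < ζ'`, `g ζ' = [b]`.  `ζ` limit: there is a surjection
`a : I → Iio ζ`.  For `x < ζ` let `k x` be the least `i` in `I` with `x ≤ a i`; `k` is monotone.
For `i : I` let `f_i` be strictly increasing on `Iio (a i + 1)` (induction hypothesis,
`a i + 1 < ζ`), and `g x = k x :: f_(k x) x`.  If `x < y` then `k x ≤ k y`, and if `k x = k y = i`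
then `x, y ≤ a i` and `f_i x < f_i y`.  Now a well-order `W` with `#W ≤ θ` has order type `ζ` with
`ζ.card = #W ≤ θ`; compose `f` with `Ordinal.typein`. -/
def KboStmt : Prop := ∀ θ : Cardinal.{u}, ℵ₀ ≤ θ → ∃ (U : Type u) (_ : LinearOrder U), #U ≤ θ ∧
  ∀ (W : Type u) [LinearOrder W] [WellFoundedLT W], #W ≤ θ → Nonempty (W ↪o U)

/-- **ZCA** (Theorem C; uses ZTG, MXB, EMB, SPT, KBO).  *Proof.*  Assume that the conclusion fails.
By MXB no extension of `M` is maximal.  Let `θ` be the least cardinal with `2 ^ #M < 2 ^ θ` (it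
exists by Cantor); `#M < θ ≤ 2 ^ #M`.  Let `U` be as in KBO and `T = E.obj U`;
`#T ≤ θ + κ ≤ 2 ^ #M` (`κ ≤ #M`).  Let `N` be an extension of `M` with `#N ≤ θ`.  Choose `l` with
`#N + κ ≤ l` and `K.Cat l`.  By EMB there is `g : K.Hom N (E.obj l.ord.ToType)`, by SPT there are
`s ⊆ l.ord.ToType` with `#s ≤ #N + ℵ₀ ≤ θ` and `h : K.Hom N (E.obj s)`; `s` is a well-order, so it
embeds into `U`, and `E.map` gives a `𝒦`-embedding `N → T`.  By ZTG there is an extension `N` of
`M` with `#N < θ` which is a base; as in ZLA, `2 ^ #N = 2 ^ #M`. -/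
def ZcaStmt : Prop := ∀ (L : FirstOrder.Language.{u, u}) (κ : Cardinal.{u}) (K : AEC L κ)
  (_ : K.EM), K.UbCat → ∀ M : K.Mod, κ ≤ #M.α →
  ∃ (N : K.Mod) (_ : K.Hom M N), AEC.IsBase N ∧
    (AEC.IsMax N ∨ (2 : Cardinal.{u}) ^ #N.α = 2 ^ #M.α)

/-- **ZCF** (Theorem C in the form of the question; uses HNF, TPA, TPB, EMX, ZCA).  *Proof.*  Take
`μ` from HNF.  If `K` is categorical in some `l ≥ μ` then `K.UbCat`, hence `K.ArbLarge` (a member
of cardinality `l ≥ m`), hence `Nonempty K.EM` by TPA, TPB, EMX; apply ZCA. -/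
def ZcfStmt : Prop := ∀ κ : Cardinal.{u}, ∃ μ : Cardinal.{u},
  ∀ (L : FirstOrder.Language.{u, u}) (K : AEC L κ), (∃ l, μ ≤ l ∧ K.Cat l) →
  ∀ M : K.Mod, κ ≤ #M.α → ∃ (N : K.Mod) (_ : K.Hom M N), AEC.IsBase N ∧
    (AEC.IsMax N ∨ (2 : Cardinal.{u}) ^ #N.α = 2 ^ #M.α)

/-! ## Theorem A: one categoricity cardinal `l = l ^ χ` -/

/-- **A1F** (one extension which is stable for all small submodels; uses STB, CCL, CN3).  *Proof.*
Let `T` be the type of pairs `(S, h)`, `S` a strong substructure of `Q0` with `#S ≤ χ` and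
`h : K.Hom (sub Q0 S) Q`.  A `𝒦`-embedding is determined by its underlying function, so there are
at most `l ^ χ = l` of them for a given `S` (`#S ≤ χ`; if `#S < χ` still `l ^ #S ≤ l ^ χ` as
`l ≠ 0`), and by CN3 `#T ≤ l * l = l` (`#Q0 = l`).  For `f : Q0 → B` let `D B f` be the set of the
pairs `(S, h)` with `h ∈ K.Dq Q (f.comp (subHom Q0 S))`; it is decreasing (restrict `g`).  Apply
STB with `A = Q0` and the property `#B = l`, which passes to unions of chains of length `≤ l` by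
CCL (`max #T ℵ₀ ≤ l`; `ChainClosed` is monotone in the bound).  If `D C (g.comp f) = D B f` then
for every `S` the fibres over `S` are equal. -/
def A1fStmt : Prop := ∀ (L : FirstOrder.Language.{u, u}) (κ : Cardinal.{u}) (K : AEC L κ)
  (l χ : Cardinal.{u}), κ ≤ χ → ℵ₀ ≤ l → l ^ χ = l → ∀ Q Q0 : K.Mod, #Q.α = l → #Q0.α = l →
  ∃ (B : K.Mod) (f : K.Hom Q0 B), #B.α = l ∧
    ∀ (S : L.Substructure Q0.α) (h : K.emb S.subtype), #S ≤ χ →
      ∀ (C : K.Mod) (g : K.Hom B C), #C.α = l →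
        K.Dq Q (g.comp (f.comp (AEC.subHom Q0 S h))) = K.Dq Q (f.comp (AEC.subHom Q0 S h))

/-- **A2F** (`χ⁺` rounds; uses A1F, TRC, CCL, DLM).  *Proof.*  Let `Q` be a member of cardinality
`l`.  Note `χ < 2 ^ χ ≤ l ^ χ = l`.  Apply TRC with `A0 = Q`, the property `#A = l`,
`J = (Order.succ χ).ord.ToType`, `c = χ ≤ l` (CCL; `#(Iio j) < succ χ`), and `R A B e f =` (for all
strong `S` in `A` with `#S ≤ χ` and all `g : B → C` with `#C = l`, `K.Dq Q (g.comp (f.comp
(subHom A S))) = K.Dq Q (f.comp (subHom A S))`), the step being A1F.  Let `G`, `s` be the direct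
limit (DLM) of the chain `F`; `#G = l` because `#J = χ⁺ ≤ l`.  Let `A ⊆ G` with `#A ≤ χ`, and
`f k : G → C k` extensions with `#(C k) = l`.  By `K.ls` there is a strong `S ⊆ G` with `A ⊆ S`,
`#S ≤ χ + κ = χ`.  Since `χ⁺` is regular there is `i : J` with `S ⊆ range (s i)` (every element of
`S` lies in some range, the ranges increase, and `χ` many indices are bounded in `J`).  So
`subHom G S` factors: `e' : sub G S → F i` with `s i (e' x) = x` (`Hom.exists_factor`).  Let
`S' = range e'` (`Hom.emb_range`), strong in `F i`, `#S' ≤ χ`, and `i ⋖ j` (`J` has no maximum).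
By `R` (for `i ⋖ j`, `S'` and `g = (f k).comp (s j)`) all the sets
`K.Dq Q ((f k).comp (s j) .comp (m i j) .comp (subHom (F i) S'))` are equal to
`K.Dq Q ((m i j).comp (subHom (F i) S'))`, which is not empty: `#(F j) = l`, so there is an
isomorphism `F j ≃ Q`; restrict it.  So there are `h` and `w k : C k → Q` with
`w k (f k (s j (m i j x))) = h x`, that is `w k (f k (s i x)) = h x`, for `x` in `S'`.  Take
`Z = Q`: every `x` in `A` is `s i x'` with `x' ∈ S'`. -/
def A2fStmt : Prop := ∀ (L : FirstOrder.Language.{u, u}) (κ : Cardinal.{u}) (K : AEC L κ)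
  (l χ : Cardinal.{u}), κ ≤ χ → ℵ₀ ≤ l → l ^ χ = l → K.Cat l →
  ∃ G : K.Mod, #G.α = l ∧ ∀ A : Set G.α, #A ≤ χ →
    ∀ (ι : Type u) (C : ι → K.Mod) (f : ∀ i, K.Hom G (C i)), (∀ i, #(C i).α = l) →
    ∃ (Z : K.Mod) (w : ∀ i, K.Hom (C i) Z), ∀ i j, ∀ x ∈ A, w i (f i x) = w j (f j x)

/-- **A3F** (Theorem A; uses A2F).  *Proof.*  Take `G` from A2F.  Let `M` be a member with
`#M = l`; there is an isomorphism `G ≃ M`.  The property of `G` carries over to `M`. -/
def A3fStmt : Prop := ∀ (L : FirstOrder.Language.{u, u}) (κ : Cardinal.{u}) (K : AEC L κ)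
  (l χ : Cardinal.{u}), κ ≤ χ → ℵ₀ ≤ l → l ^ χ = l → K.Cat l → K.APsmall l χ

end Pool.Agent.AEC
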